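import Pool.Agent.Prc92s.Point2

/-!
# The weight of the vertices is paid by the excess
-/

namespace Prc24

open Finset Classical

variable {P : Set Z2} {K A B : ℤ} {m : ℕ}

/-- number of displacements leading into a target rectangle -/
private lemma card_target {K A B : ℤ} (hA : 0 < A) (hB : 0 < B) {v : Z2} {X Y : ℤ}
    (x1 : X - K < v.1) (x2 : v.1 ≤ X - A) (y1 : Y - K < v.2) (y2 : v.2 ≤ Y - B) :
    (((DD K).filter (fun d => inR A B X Y (v + d))).card : ℝ) = (A : ℝ) * B := by
  have hfil : (DD K).filter (fun d => inR A B X Y (v + d)) =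
      Ioc (X - A - v.1) (X - v.1) ×ˢ Ioc (Y - B - v.2) (Y - v.2) := by
    ext d
    rw [mem_filter]
    unfold DD inR
    rw [mem_product, mem_product, mem_Icc, mem_Icc, mem_Ioc, mem_Ioc]
    simp only [Prod.fst_add, Prod.snd_add]
    constructor
    · rintro ⟨_, h1, h2, h3, h4⟩
      refine ⟨⟨by linarith, by linarith⟩, ⟨by linarith, by linarith⟩⟩
    · rintro ⟨⟨h1, h2⟩, ⟨h3, h4⟩⟩
      refine ⟨⟨⟨?_, ?_⟩, ⟨?_, ?_⟩⟩, by linarith, by linarith, by linarith, by linarith⟩
      all_goals omega
  rw [hfil, card_product, Int.card_Ioc, Int.card_Ioc, Nat.cast_mul]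
  have e1 : X - v.1 - (X - A - v.1) = A := by ring
  have e2 : Y - v.2 - (Y - B - v.2) = B := by ring
  have a1 : ((A.toNat : ℕ) : ℝ) = A := by
    have : ((A.toNat : ℕ) : ℤ) = A := Int.toNat_of_nonneg hA.le
    exact_mod_cast this
  have a2 : ((B.toNat : ℕ) : ℝ) = B := by
    have : ((B.toNat : ℕ) : ℤ) = B := Int.toNat_of_nonneg hB.le
    exact_mod_cast this
  rw [e1, e2, a1, a2]

theorem claims_le (μ : Prc92.Mean) (h : Prc P K A B m) :
    (A : ℝ) * B * μ.M (tt P K A B m) ≤
      ((K : ℝ) - A) * (K - B) * μ.M (fun z => ((f P K A B m z - (m + 1) : ℕ) : ℝ)) := by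
  -- choice of the target rectangles
  have hch1 : ∀ t v, ∃ X Y : ℤ, cc P K A B m t v → Cl P K A B m t v X Y := by
    intro t v
    by_cases hc : cc P K A B m t v
    · obtain ⟨X, Y, hXY⟩ := exists_claim h hc
      exact ⟨X, Y, fun _ => hXY⟩
    · exact ⟨0, 0, fun hh => absurd hh hc⟩
  have hch2 : ∀ v, ∃ X Y : ℤ, K1 P K A B m v → Cf P K A B m v X Y := by
    intro v
    by_cases hc : K1 P K A B m v
    · obtain ⟨X, Y, hXY⟩ := exists_face h hc
      exact ⟨X, Y, fun _ => hXY⟩
    · exact ⟨0, 0, fun hh => absurd hh hc⟩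
  choose X Y hXY using hch1
  choose X' Y' hXY' using hch2
  have hC : Ch P K A B m X Y X' Y' := ⟨hXY, hXY'⟩
  obtain ⟨g, hg⟩ : ∃ g : Z2 → Z2 → ℝ, g = fun d v =>
      (∑ t : Bool × Bool, (if cc P K A B m t v ∧ inR A B (X t v) (Y t v) (v + d)
        then om P K A B m v else 0)) +
      (if K1 P K A B m v ∧ inR A B (X' v) (Y' v) (v + d) then 1 else 0) := ⟨_, rfl⟩
  have om1 : ∀ v, om P K A B m v ≤ 1 := by
    intro v
    unfold om
    have h1 : (1 : ℝ) / (nf P K A B m v : ℝ) ≤ 1 := by
      by_cases hn : nf P K A B m v = 0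
      · rw [hn]
        norm_num
      · have : (1 : ℝ) ≤ nf P K A B m v := by
          exact_mod_cast Nat.one_le_iff_ne_zero.2 hn
        rw [div_le_one (by linarith)]
        exact this
    split_ifs
    · exact (min_le_left _ _).trans (by norm_num)
    · exact h1
  have g0 : ∀ d v, 0 ≤ g d v := by
    intro d v
    rw [hg]
    simp only
    have h1 : 0 ≤ ∑ t : Bool × Bool, (if cc P K A B m t v ∧ inR A B (X t v) (Y t v) (v + d)
        then om P K A B m v else 0) := by
      refine sum_nonneg fun t _ => ?_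
      split_ifs
      · exact om_nonneg _
      · exact le_rfl
    have h2 : (0 : ℝ) ≤ (if K1 P K A B m v ∧ inR A B (X' v) (Y' v) (v + d) then 1 else 0) := by
      split_ifs <;> norm_num
    linarith
  have g5 : ∀ d v, g d v ≤ 5 := by
    intro d v
    rw [hg]
    simp only
    have h1 : ∑ t : Bool × Bool, (if cc P K A B m t v ∧ inR A B (X t v) (Y t v) (v + d)
        then om P K A B m v else 0) ≤ ∑ t : Bool × Bool, (1 : ℝ) := by
      refine sum_le_sum fun t _ => ?_
      split_ifs
      · exact om1 _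
      · norm_num
    have h2 : (if K1 P K A B m v ∧ inR A B (X' v) (Y' v) (v + d) then (1 : ℝ) else 0) ≤ 1 := by
      split_ifs <;> norm_num
    have h3 : ∑ t : Bool × Bool, (1 : ℝ) = 4 := by
      rw [univ_types]
      norm_num
    linarith
  have hgb : ∀ d ∈ DD K, Prc92.Bd (g d) := fun d _ => Prc92.Bd.of_le 5 (g0 d) (g5 d)
  have htr := μ.transport (DD K) (f := g) (fun d => d) hgb
  -- outgoing mass
  have hout : (fun v => ∑ d ∈ DD K, g d v) = fun v => (A : ℝ) * B * tt P K A B m v := by
    funext v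
    rw [hg]
    simp only
    rw [sum_add_distrib, sum_comm]
    have h1 : ∀ t : Bool × Bool, ∑ d ∈ DD K,
        (if cc P K A B m t v ∧ inR A B (X t v) (Y t v) (v + d) then om P K A B m v else 0) =
        (A : ℝ) * B * (if cc P K A B m t v then om P K A B m v else 0) := by
      intro t
      by_cases hc : cc P K A B m t v
      · have c := hC.cl t v hc
        simp only [hc, true_and, if_true]
        rw [← sum_filter, sum_const, nsmul_eq_mul, card_target h.A0 h.B0 c.x1 c.x2 c.y1 c.y2]
      · simp only [hc, false_and, if_false, sum_const_zero, mul_zero]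
    have h2 : ∑ d ∈ DD K,
        (if K1 P K A B m v ∧ inR A B (X' v) (Y' v) (v + d) then (1 : ℝ) else 0) =
        (A : ℝ) * B * (if K1 P K A B m v then 1 else 0) := by
      by_cases hc : K1 P K A B m v
      · have c := hC.cf v hc
        simp only [hc, true_and, if_true]
        rw [← sum_filter, sum_const, nsmul_eq_mul, card_target h.A0 h.B0 c.x1 c.x2 c.y1 c.y2]
      · simp only [hc, false_and, if_false, sum_const_zero, mul_zero]
    rw [h2, sum_congr rfl fun t _ => h1 t, ← mul_sum, sum_cc_om, nf_mul_om_eq, ← mul_add]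
    rfl
  -- incoming mass
  have hin : ∀ y : Z2, ∑ d ∈ DD K, g d (y - d) ≤
      ((K : ℝ) - A) * (K - B) * ((f P K A B m y - (m + 1) : ℕ) : ℝ) := by
    intro y
    refine le_trans (le_of_eq ?_) (point h hC y)
    rw [hg]
    simp only [sub_add_cancel]
    rw [sum_add_distrib, sum_comm]
    congr 1
    · refine sum_congr rfl fun t _ => ?_
      rw [← sum_filter]
      rfl
    · rw [← sum_filter, sum_const, nsmul_eq_mul, mul_one]
      rfl
  have hT : Prc92.Bd (fun z => ((f P K A B m z - (m + 1) : ℕ) : ℝ)) := by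
    refine Prc92.Bd.of_le (((m * K + A).toNat * (m * K + B).toNat : ℕ) : ℝ) (fun z => by positivity)
      fun z => ?_
    have h1 : f P K A B m z ≤ (m * K + A).toNat * (m * K + B).toNat := by
      unfold f ct
      refine (card_filter_le _ _).trans ?_
      unfold bx
      rw [card_product, Int.card_Ico, Int.card_Ico]
      have e1 : z.1 + (m * K + A) - z.1 = m * K + A := by ring
      have e2 : z.2 + (m * K + B) - z.2 = m * K + B := by ring
      rw [e1, e2]
    exact_mod_cast (Nat.sub_le _ _).trans h1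
  have htt : Prc92.Bd (tt P K A B m) := by
    refine Prc92.Bd.of_le 2 (fun v => ?_) (fun v => ?_)
    · unfold tt
      have : (0 : ℝ) ≤ nf P K A B m v := Nat.cast_nonneg _
      split_ifs
      · have := le_min (zero_le_one' ℝ) (div_nonneg this (zero_le_two))
        linarith
      · have := le_min (zero_le_one' ℝ) (div_nonneg this (zero_le_two))
        linarith
      · have := le_min (zero_le_one' ℝ) this
        linarith
      · have := le_min (zero_le_one' ℝ) this
        linarith
    · unfold tt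
      have h1 : min 1 ((nf P K A B m v : ℝ) / 2) ≤ 1 := min_le_left _ _
      have h2 : min 1 (nf P K A B m v : ℝ) ≤ 1 := min_le_left _ _
      split_ifs <;> linarith
  rw [← μ.smul _ _ htt, ← μ.smul _ _ hT]
  have hout' := congrArg μ.M hout
  rw [← hout', ← htr]
  exact μ.mono _ _ (Prc92.Bd.sum (DD K) fun d hd => (hgb d hd).comp fun z => z - d) (hT.smul _) hin

end Prc24
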