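import Pool.Agent.Prc92s.Res

/-!
# The target rectangle of a full corner
-/

namespace Prc24

open Finset Classical

variable {P : Set Z2} {K A B : ℤ} {m : ℕ}

/-- the target rectangle `(X, Y)` of the claim of type `t` of `v` -/
structure Cl (P : Set Z2) (K A B : ℤ) (m : ℕ) (t : Bool × Bool) (v : Z2) (X Y : ℤ) : Prop where
  gd : Gd P K A B m (sh K t v)
  x1 : X - K < v.1
  x2 : v.1 ≤ X - A
  y1 : Y - K < v.2
  y2 : v.2 ≤ Y - B
  f2 : ∀ y, inR A B X Y y → m + 2 ≤ f P K A B m y
  ctq : ∀ y, inR A B X Y y → ct P K A B m (sh K t v) = Mt P K A B m t y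
  ne1 : ∀ y, inR A B X Y y → (Hs P K A B m (!t.1) y \ Vs P K A B m t.2 y).Nonempty
  ne2 : ∀ y, inR A B X Y y → (Vs P K A B m (!t.2) y \ Hs P K A B m t.1 y).Nonempty
  pr : ∀ y, inR A B X Y y → 3 ≤ m → (ct P K A B m (sh K t v) \ Hs P K A B m (!t.1) y).Nonempty

private lemma fc_unif {t : Bool × Bool} {M : Finset Z2} (hf : FC P K A B m t M) :
    ∃ X Y : ℤ, (∀ p ∈ M, X + (if t.1 then K else 0) ≤ p.1 ∧
      p.1 ≤ X + (if t.1 then K else 0) + (m * K - K) ∧
      Y + (if t.2 then K else 0) ≤ p.2 ∧ p.2 ≤ Y + (if t.2 then K else 0) + (m * K - K)) ∧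
      ∀ y, inR A B X Y y → m + 2 ≤ f P K A B m y := by
  have e : ((m : ℤ) - 1) * K = m * K - K := by ring
  obtain ⟨i, j⟩ := t
  cases i <;> cases j <;> unfold FC at hf <;> simp only at hf <;> obtain ⟨ξ, η, h1, h2⟩ := hf
  · refine ⟨ξ, η, fun p hp => ?_, fun y hy => h2 y.1 y.2 hy.1 hy.2.1 hy.2.2.1 hy.2.2.2⟩
    have := h1 p hp
    rw [e] at this
    simp only [Bool.false_eq_true, if_false, add_zero]
    exact this
  · refine ⟨ξ, η - m * K, fun p hp => ?_, fun y hy => h2 y.1 y.2 hy.1 hy.2.1 hy.2.2.1 hy.2.2.2⟩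
    have := h1 p hp
    rw [e] at this
    obtain ⟨a1, a2, a3, a4⟩ := this
    simp only [Bool.false_eq_true, if_false, if_true, add_zero]
    exact ⟨a1, a2, by linarith, by linarith⟩
  · refine ⟨ξ - m * K, η, fun p hp => ?_, fun y hy => h2 y.1 y.2 hy.1 hy.2.1 hy.2.2.1 hy.2.2.2⟩
    have := h1 p hp
    rw [e] at this
    obtain ⟨a1, a2, a3, a4⟩ := this
    simp only [Bool.false_eq_true, if_false, if_true, add_zero]
    exact ⟨by linarith, by linarith, a3, a4⟩
  · refine ⟨ξ - m * K, η - m * K, fun p hp => ?_,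
      fun y hy => h2 y.1 y.2 hy.1 hy.2.1 hy.2.2.1 hy.2.2.2⟩
    have := h1 p hp
    rw [e] at this
    obtain ⟨a1, a2, a3, a4⟩ := this
    simp only [if_true]
    exact ⟨by linarith, by linarith, by linarith, by linarith⟩

lemma mem_Hs {i : Bool} {y p : Z2} : p ∈ Hs P K A B m i y ↔ p ∈ ct P K A B m y ∧
    (if i then p.1 < y.1 + K else y.1 + ((m - 1) * K + A) ≤ p.1) := by
  unfold Hs
  rw [mem_filter]

lemma mem_Vs {j : Bool} {y p : Z2} : p ∈ Vs P K A B m j y ↔ p ∈ ct P K A B m y ∧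
    (if j then p.2 < y.2 + K else y.2 + ((m - 1) * K + B) ≤ p.2) := by
  unfold Vs
  rw [mem_filter]

lemma mem_Mt {t : Bool × Bool} {y p : Z2} : p ∈ Mt P K A B m t y ↔ p ∈ ct P K A B m y ∧
    p ∉ Hs P K A B m t.1 y ∧ p ∉ Vs P K A B m t.2 y := by
  unfold Mt
  rw [mem_sdiff, mem_union, not_or]

/-- Proof: see the header of the note; the four types are treated together with the shift `sx`, `sy`. -/
theorem exists_claim (h : Prc P K A B m) {t : Bool × Bool} {v : Z2} (hc : cc P K A B m t v) :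
    ∃ X Y : ℤ, Cl P K A B m t v X Y := by
  obtain ⟨hz, hf⟩ := hc
  obtain ⟨X, Y, hM, hf2⟩ := fc_unif hf
  have hA0 := h.A0
  have hAK := h.AK
  have hB0 := h.B0
  have hBK := h.BK
  have hm := h.m2
  have hm1 : ((m - 1 : ℕ) : ℤ) = (m : ℤ) - 1 := by omega
  have hK : 0 < K := by linarith
  have e : ((m : ℤ) - 1) * K = m * K - K := by ring
  have hmK : 2 * K ≤ m * K := mul_le_mul_of_nonneg_right (by exact_mod_cast hm) hK.le
  obtain ⟨p0, hp0, p01, p02⟩ := col_ex h hz (i := 0) (by omega)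
  obtain ⟨p1, hp1, p11, p12⟩ := col_ex h hz (i := m - 1) (by omega)
  obtain ⟨q0, hq0, q01, q02⟩ := row_ex h hz (i := 0) (by omega)
  obtain ⟨q1, hq1, q11, q12⟩ := row_ex h hz (i := m - 1) (by omega)
  have P0 := hM p0 hp0
  have P1 := hM p1 hp1
  have Q0 := hM q0 hq0
  have Q1 := hM q1 hq1
  rw [hm1, e] at p11 p12 q11 q12
  simp only [Nat.cast_zero, zero_mul, add_zero] at p01 p02 q01 q02
  have s1 : (sh K t v).1 = v.1 + (if t.1 then K else 0) := rfl
  have s2 : (sh K t v).2 = v.2 + (if t.2 then K else 0) := rfl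
  rw [s1] at p01 p02 p11 p12
  rw [s2] at q01 q02 q11 q12
  have sx0 : (0 : ℤ) ≤ (if t.1 then K else 0) ∧ (if t.1 then K else 0) ≤ K := by
    split_ifs <;> constructor <;> linarith
  have sy0 : (0 : ℤ) ≤ (if t.2 then K else 0) ∧ (if t.2 then K else 0) ≤ K := by
    split_ifs <;> constructor <;> linarith
  have x1 : X - K < v.1 := by linarith
  have x2 : v.1 ≤ X - A := by linarith
  have y1 : Y - K < v.2 := by linarith
  have y2 : v.2 ≤ Y - B := by linarith
  have key : ∀ y, inR A B X Y y → ct P K A B m (sh K t v) = Mt P K A B m t y := by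
    intro y hy
    obtain ⟨r1, r2, r3, r4⟩ := hy
    ext p
    rw [mem_Mt, mem_ct, s1, s2]
    constructor
    · intro hp
      have hpM := hM p (by rw [mem_ct, s1, s2]; exact hp)
      have hpy : p ∈ ct P K A B m y := by
        rw [mem_ct]
        exact ⟨hp.1, by linarith, by linarith, by linarith, by linarith⟩
      refine ⟨hpy, ?_, ?_⟩
      · rw [mem_Hs]
        rintro ⟨_, h2⟩
        by_cases ht : t.1 = true
        · rw [if_pos ht] at h2 hpM
          linarith
        · rw [if_neg ht] at h2 hpM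
          rw [e] at h2
          linarith
      · rw [mem_Vs]
        rintro ⟨_, h2⟩
        by_cases ht : t.2 = true
        · rw [if_pos ht] at h2
          rw [if_pos ht] at hpM
          linarith
        · rw [if_neg ht] at h2
          rw [if_neg ht] at hpM
          rw [e] at h2
          linarith
    · rintro ⟨hp, hH, hV⟩
      have hpy : p ∈ ct P K A B m y := hp
      obtain ⟨hpP, a1, a2, a3, a4⟩ := mem_ct.1 hp
      rw [mem_Hs] at hH
      rw [mem_Vs] at hV
      refine ⟨hpP, ?_, ?_, ?_, ?_⟩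
      · by_cases ht : t.1 = true
        · rw [if_pos ht] at hH ⊢
          have : ¬ p.1 < y.1 + K := fun hh => hH ⟨hpy, hh⟩
          linarith
        · rw [if_neg ht]
          linarith
      · by_cases ht : t.1 = true
        · rw [if_pos ht]
          linarith
        · rw [if_neg ht] at hH ⊢
          have : ¬ y.1 + ((m - 1) * K + A) ≤ p.1 := fun hh => hH ⟨hpy, hh⟩
          rw [e] at this
          linarith
      · by_cases ht : t.2 = true
        · rw [if_pos ht] at hV ⊢
          have : ¬ p.2 < y.2 + K := fun hh => hV ⟨hpy, hh⟩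
          linarith
        · rw [if_neg ht]
          linarith
      · by_cases ht : t.2 = true
        · rw [if_pos ht]
          linarith
        · rw [if_neg ht] at hV ⊢
          have : ¬ y.2 + ((m - 1) * K + B) ≤ p.2 := fun hh => hV ⟨hpy, hh⟩
          rw [e] at this
          linarith
  have sub : ∀ y, inR A B X Y y → ∀ p ∈ ct P K A B m (sh K t v), p ∈ ct P K A B m y ∧
      p ∉ Hs P K A B m t.1 y ∧ p ∉ Vs P K A B m t.2 y := by
    intro y hy p hp
    rw [key y hy, mem_Mt] at hp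
    exact hp
  refine ⟨X, Y, hz, x1, x2, y1, y2, hf2, key, ?_, ?_, ?_⟩
  · intro y hy
    have hy' := hy
    obtain ⟨r1, r2, r3, r4⟩ := hy'
    by_cases ht : t.1 = true
    · have s := sub y hy p1 hp1
      refine ⟨p1, ?_⟩
      rw [mem_sdiff, mem_Hs]
      refine ⟨⟨s.1, ?_⟩, s.2.2⟩
      rw [ht] at p11 ⊢
      simp only [Bool.not_true, Bool.false_eq_true, if_false, if_true] at p11 ⊢
      rw [e]
      linarith
    · have s := sub y hy p0 hp0
      refine ⟨p0, ?_⟩
      rw [mem_sdiff, mem_Hs]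
      refine ⟨⟨s.1, ?_⟩, s.2.2⟩
      rw [Bool.not_eq_true] at ht
      rw [ht] at p02 ⊢
      simp only [Bool.not_false, Bool.false_eq_true, if_false, if_true] at p02 ⊢
      linarith
  · intro y hy
    have hy' := hy
    obtain ⟨r1, r2, r3, r4⟩ := hy'
    by_cases ht : t.2 = true
    · have s := sub y hy q1 hq1
      refine ⟨q1, ?_⟩
      rw [mem_sdiff, mem_Vs]
      refine ⟨⟨s.1, ?_⟩, s.2.1⟩
      rw [ht] at q11 ⊢
      simp only [Bool.not_true, Bool.false_eq_true, if_false, if_true] at q11 ⊢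
      rw [e]
      linarith
    · have s := sub y hy q0 hq0
      refine ⟨q0, ?_⟩
      rw [mem_sdiff, mem_Vs]
      refine ⟨⟨s.1, ?_⟩, s.2.1⟩
      rw [Bool.not_eq_true] at ht
      rw [ht] at q02 ⊢
      simp only [Bool.not_false, Bool.false_eq_true, if_false, if_true] at q02 ⊢
      linarith
  · intro y hy h3
    have hy' := hy
    obtain ⟨r1, r2, r3, r4⟩ := hy'
    have hmK3 : 3 * K ≤ m * K := mul_le_mul_of_nonneg_right (by exact_mod_cast h3) hK.le
    by_cases ht : t.1 = true
    · refine ⟨p0, ?_⟩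
      rw [mem_sdiff, mem_Hs]
      refine ⟨hp0, ?_⟩
      rintro ⟨_, h2⟩
      rw [ht] at h2 p02
      simp only [Bool.not_true, Bool.false_eq_true, if_false, if_true] at h2 p02
      rw [e] at h2
      linarith
    · refine ⟨p1, ?_⟩
      rw [mem_sdiff, mem_Hs]
      refine ⟨hp1, ?_⟩
      rintro ⟨_, h2⟩
      rw [Bool.not_eq_true] at ht
      rw [ht] at h2 p11
      simp only [Bool.not_false, Bool.false_eq_true, if_false, if_true] at h2 p11
      linarith

end Prc24
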