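import Pool.Agent.Prc24.Chain

/-!
# Claims of vertices: definitions

`v` is a vertex; around it are the four windows `sh K t v`, `t : Bool × Bool` (lower left, lower right,
upper left, upper right).  `FC t M`: the corner of the content `M` of the window of type `t` pointing towards
the middle is full.  `tt v` is the weight of the vertex.
-/

namespace Prc24

open Finset Classical

section
variable (P : Set Z2) (K A B : ℤ) (m : ℕ)

/-- the window of type `t` at the vertex `v` -/
def sh (t : Bool × Bool) (v : Z2) : Z2 :=
  (v.1 + (if t.1 then K else 0), v.2 + (if t.2 then K else 0))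

/-- the corner of the content of a window of type `t` that points towards the vertex is full -/
def FC (t : Bool × Bool) (M : Finset Z2) : Prop :=
  match t with
  | (false, false) => NE P K A B m M
  | (true, false) => NW P K A B m M
  | (false, true) => SE P K A B m M
  | (true, true) => SW P K A B m M

/-- the window of type `t` at `v` is good with full corner towards the middle -/
def cc (t : Bool × Bool) (v : Z2) : Prop :=
  Gd P K A B m (sh K t v) ∧ FC P K A B m t (ct P K A B m (sh K t v))

/-- number of full corners at `v` -/
noncomputable def nf (v : Z2) : ℕ := (univ.filter (fun t : Bool × Bool => cc P K A B m t v)).card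

/-- the four windows at `v` are good and the corner cell of the first one is occupied -/
def K1 (v : Z2) : Prop := (∀ t : Bool × Bool, Gd P K A B m (sh K t v)) ∧
  ∃ p ∈ ct P K A B m v, p.1 < v.1 + K ∧ p.2 < v.2 + K

/-- the weight of a claim of `v` -/
noncomputable def om (v : Z2) : ℝ :=
  if m = 2 then min (1 / 2) (1 / (nf P K A B m v : ℝ)) else 1 / (nf P K A B m v : ℝ)

/-- the weight of a vertex -/
noncomputable def tt (v : Z2) : ℝ :=
  (if m = 2 then min 1 ((nf P K A B m v : ℝ) / 2) else min 1 (nf P K A B m v : ℝ)) +
    (if K1 P K A B m v then 1 else 0)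

/-- left strip (`true`) or right strip (`false`) of the window `y` -/
noncomputable def Hs (i : Bool) (y : Z2) : Finset Z2 :=
  (ct P K A B m y).filter (fun p => if i then p.1 < y.1 + K else y.1 + ((m - 1) * K + A) ≤ p.1)

/-- bottom strip (`true`) or top strip (`false`) of the window `y` -/
noncomputable def Vs (j : Bool) (y : Z2) : Finset Z2 :=
  (ct P K A B m y).filter (fun p => if j then p.2 < y.2 + K else y.2 + ((m - 1) * K + B) ≤ p.2)

/-- the content claimed at `y` by type `t` -/
noncomputable def Mt (t : Bool × Bool) (y : Z2) : Finset Z2 :=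
  ct P K A B m y \ (Hs P K A B m t.1 y ∪ Vs P K A B m t.2 y)

/-- `y` lies in the target rectangle with upper right corner `(X, Y)` -/
def inR (A B X Y : ℤ) (y : Z2) : Prop := X - A < y.1 ∧ y.1 ≤ X ∧ Y - B < y.2 ∧ y.2 ≤ Y

/-- the displacements of claims -/
noncomputable def DD (K : ℤ) : Finset Z2 := Icc (1 : ℤ) K ×ˢ Icc (1 : ℤ) K

/-- displacements compatible with the abscissa of `p` and the ordinate of `q` -/
noncomputable def Dp (K A B : ℤ) (y p q : Z2) : Finset Z2 :=
  (DD K).filter (fun d => A ≤ (p.1 - (y.1 - d.1)) % K ∧ B ≤ (q.2 - (y.2 - d.2)) % K)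

end

end Prc24
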