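import Pool.Agent.Prc92s.Claim

/-!
# The level two claim of a face with occupied corner cell
-/

namespace Prc24

open Finset Classical

variable {P : Set Z2} {K A B : ℤ} {m : ℕ}

/-- the target rectangle `(X, Y)` of the level two claim of `v` -/
structure Cf (P : Set Z2) (K A B : ℤ) (m : ℕ) (v : Z2) (X Y : ℤ) : Prop where
  gd : Gd P K A B m v
  x1 : X - K < v.1
  x2 : v.1 ≤ X - A
  y1 : Y - K < v.2
  y2 : v.2 ≤ Y - B
  f3 : ∀ y, inR A B X Y y → f P K A B m y = m + 3
  ctq : ∀ y, inR A B X Y y → ct P K A B m v = Mt P K A B m (false, false) y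
  pt : ∀ y, inR A B X Y y → ∃ p ∈ ct P K A B m v, ∀ t : Bool × Bool,
    (Mt P K A B m t y).card = m → p ∈ Mt P K A B m t y

theorem exists_face (h : Prc P K A B m) {v : Z2} (hc : K1 P K A B m v) :
    ∃ X Y : ℤ, Cf P K A B m v X Y := by
  obtain ⟨hG, o, ho, ho1, ho2⟩ := hc
  have hA0 := h.A0
  have hAK := h.AK
  have hB0 := h.B0
  have hBK := h.BK
  have hm := h.m2
  have hm1 : ((m - 1 : ℕ) : ℤ) = (m : ℤ) - 1 := by omega
  have hK : 0 < K := by linarith
  have e0 : ((m : ℤ) - 1) * K = m * K - K := by ring
  have hmK : 2 * K ≤ m * K := mul_le_mul_of_nonneg_right (by exact_mod_cast hm) hK.le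
  have g00 : Gd P K A B m v := by
    have := hG (false, false)
    simpa [sh] using this
  have g10 : Gd P K A B m (v.1 + K, v.2) := by
    have := hG (true, false)
    simpa [sh] using this
  have g01 : Gd P K A B m (v.1, v.2 + K) := by
    have := hG (false, true)
    simpa [sh] using this
  have g11 : Gd P K A B m (v.1 + K, v.2 + K) := by
    have := hG (true, true)
    simpa [sh] using this
  -- membership
  have M00 : ∀ q : Z2, q ∈ ct P K A B m v ↔ q ∈ P ∧ v.1 ≤ q.1 ∧ q.1 < v.1 + (m * K + A) ∧
    v.2 ≤ q.2 ∧ q.2 < v.2 + (m * K + B) := fun q => mem_ct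
  have M10 : ∀ q : Z2, q ∈ ct P K A B m (v.1 + K, v.2) ↔ q ∈ P ∧ v.1 + K ≤ q.1 ∧
    q.1 < v.1 + K + (m * K + A) ∧ v.2 ≤ q.2 ∧ q.2 < v.2 + (m * K + B) := fun q => mem_ct
  have M01 : ∀ q : Z2, q ∈ ct P K A B m (v.1, v.2 + K) ↔ q ∈ P ∧ v.1 ≤ q.1 ∧
    q.1 < v.1 + (m * K + A) ∧ v.2 + K ≤ q.2 ∧ q.2 < v.2 + K + (m * K + B) := fun q => mem_ct
  have M11 : ∀ q : Z2, q ∈ ct P K A B m (v.1 + K, v.2 + K) ↔ q ∈ P ∧ v.1 + K ≤ q.1 ∧
    q.1 < v.1 + K + (m * K + A) ∧ v.2 + K ≤ q.2 ∧ q.2 < v.2 + K + (m * K + B) := fun q => mem_ct
  have ho' := (M00 o).1 ho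
  -- every other point of the first window lies in the four windows
  have hoth : ∀ q ∈ ct P K A B m v, q ≠ o → v.1 + K ≤ q.1 ∧ v.2 + K ≤ q.2 := by
    intro q hq hne
    have hq' := (M00 q).1 hq
    constructor
    · by_contra hcon
      push Not at hcon
      apply hne
      refine col_inj h g00 (i := 0) hq ho ?_ ?_ ?_ ?_ <;> push_cast <;> linarith
    · by_contra hcon
      push Not at hcon
      apply hne
      refine row_inj h g00 (i := 0) hq ho ?_ ?_ ?_ ?_ <;> push_cast <;> linarith
  -- slots of o
  have hoA : v.1 + A ≤ o.1 := by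
    obtain ⟨q, hq, q1, q2⟩ := col_ex h g00 (i := 0) (by omega)
    push_cast at q1 q2
    by_cases hqo : q = o
    · rw [hqo] at q1
      linarith
    · have := (hoth q hq hqo).1
      linarith
  have hoB : v.2 + B ≤ o.2 := by
    obtain ⟨q, hq, q1, q2⟩ := row_ex h g00 (i := 0) (by omega)
    push_cast at q1 q2
    by_cases hqo : q = o
    · rw [hqo] at q1
      linarith
    · have := (hoth q hq hqo).2
      linarith
  -- the upper left corner point
  obtain ⟨a, ha, a1, a2⟩ := col_ex h g01 (i := 0) (by omega)
  simp only [Nat.cast_zero, zero_mul, add_zero] at a1 a2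
  have ha' := (M01 a).1 ha
  have a3 : v.2 + (m * K + B) ≤ a.2 := by
    by_contra hcon
    push Not at hcon
    have hav : a ∈ ct P K A B m v := (M00 a).2 ⟨ha'.1, ha'.2.1, ha'.2.2.1, by linarith, hcon⟩
    by_cases hao : a = o
    · rw [hao] at ha'
      linarith
    · have := (hoth a hav hao).1
      linarith
  -- the lower right corner point
  obtain ⟨r, hr, r1, r2⟩ := row_ex h g10 (i := 0) (by omega)
  simp only [Nat.cast_zero, zero_mul, add_zero] at r1 r2
  have hr' := (M10 r).1 hr
  have r3 : v.1 + (m * K + A) ≤ r.1 := by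
    by_contra hcon
    push Not at hcon
    have hrv : r ∈ ct P K A B m v := (M00 r).2 ⟨hr'.1, by linarith, hcon, hr'.2.2.2.1, hr'.2.2.2.2⟩
    by_cases hro : r = o
    · rw [hro] at hr'
      linarith
    · have := (hoth r hrv hro).2
      linarith
  -- the upper right corner point
  obtain ⟨e, he, e1, e2⟩ := col_ex h g11 (i := m - 1) (by omega)
  rw [hm1, e0] at e1 e2
  simp only at e1 e2
  have he' := (M11 e).1 he
  have e3 : v.2 + (m * K + B) ≤ e.2 := by
    by_contra hcon
    push Not at hcon
    have hev : e ∈ ct P K A B m (v.1 + K, v.2) :=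
      (M10 e).2 ⟨he'.1, he'.2.1, he'.2.2.1, by linarith, hcon⟩
    obtain ⟨i, hi, i1, i2⟩ := col_slot h g10 hr
    simp only at i1 i2
    have hi2 : i = m - 1 := by
      by_contra hne
      have : (i : ℤ) + 2 ≤ m := by omega
      have : ((i : ℤ) + 2) * K ≤ m * K := mul_le_mul_of_nonneg_right this hK.le
      have : ((i : ℤ) + 2) * K = i * K + 2 * K := by ring
      linarith
    have her : e = r := by
      rw [hi2, hm1, e0] at i2
      refine col_inj h g10 (i := m - 1) hev hr ?_ ?_ ?_ ?_ <;> rw [hm1, e0] <;> simp only <;> linarith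
    rw [her] at he'
    linarith
  -- the point in column one and the point in row one
  obtain ⟨p, hp, p1, p2⟩ := col_ex h g00 (i := 1) (by omega)
  push_cast at p1 p2
  obtain ⟨s, hs, s1, s2⟩ := row_ex h g00 (i := 1) (by omega)
  push_cast at s1 s2
  have hpo : p ≠ o := by
    rintro rfl
    linarith
  have hso : s ≠ o := by
    rintro rfl
    linarith
  have hp' := (M00 p).1 hp
  have hs' := (M00 s).1 hs
  have hp2 := hoth p hp hpo
  have hs2 := hoth s hs hso
  have in10 : ∀ q ∈ ct P K A B m v, q ≠ o → q ∈ ct P K A B m (v.1 + K, v.2) := by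
    intro q hq hne
    have h1 := (M00 q).1 hq
    have h2 := hoth q hq hne
    exact (M10 q).2 ⟨h1.1, h2.1, by linarith, by linarith, by linarith⟩
  have in01 : ∀ q ∈ ct P K A B m v, q ≠ o → q ∈ ct P K A B m (v.1, v.2 + K) := by
    intro q hq hne
    have h1 := (M00 q).1 hq
    have h2 := hoth q hq hne
    exact (M01 q).2 ⟨h1.1, by linarith, by linarith, by linarith, by linarith⟩
  have in11 : ∀ q ∈ ct P K A B m v, q ≠ o → q ∈ ct P K A B m (v.1 + K, v.2 + K) := by
    intro q hq hne
    have h1 := (M00 q).1 hq
    have h2 := hoth q hq hne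
    exact (M11 q).2 ⟨h1.1, h2.1, by linarith, by linarith, by linarith⟩
  -- extents
  have cp1 : p.1 ≤ o.1 + K := by
    have := col_chain h g00 ho hp (i := 0) (j := 1) (by omega) (by push_cast; linarith)
      (by push_cast; linarith) (by push_cast; linarith) (by push_cast; linarith)
    push_cast at this
    linarith
  have cp2 : p.1 ≤ a.1 + K := by
    have := col_chain h g01 ha (in01 p hp hpo) (i := 0) (j := 1) (by omega)
      (by push_cast; linarith)
      (by push_cast; linarith) (by push_cast; linarith)
      (by push_cast; linarith)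
    push_cast at this
    linarith
  have cs1 : s.2 ≤ o.2 + K := by
    have := row_chain h g00 ho hs (i := 0) (j := 1) (by omega) (by push_cast; linarith)
      (by push_cast; linarith) (by push_cast; linarith) (by push_cast; linarith)
    push_cast at this
    linarith
  have cs2 : s.2 ≤ r.2 + K := by
    have := row_chain h g10 hr (in10 s hs hso) (i := 0) (j := 1) (by omega)
      (by push_cast; linarith)
      (by push_cast; linarith) (by push_cast; linarith)
      (by push_cast; linarith)
    push_cast at this
    linarith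
  have cr : r.1 ≤ p.1 + (m * K - K) := by
    have := col_ext h g10 (in10 p hp hpo) hr
    rw [e0] at this
    exact this
  have ce1 : e.1 ≤ p.1 + (m * K - K) := by
    have := col_ext h g11 (in11 p hp hpo) he
    rw [e0] at this
    exact this
  have ce2 : e.2 ≤ s.2 + (m * K - K) := by
    have := row_ext h g11 (in11 s hs hso) he
    rw [e0] at this
    exact this
  have ca : a.2 ≤ s.2 + (m * K - K) := by
    have := row_ext h g01 (in01 s hs hso) ha
    rw [e0] at this
    exact this
  obtain ⟨X, hX⟩ : ∃ X : ℤ, X = min o.1 a.1 := ⟨_, rfl⟩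
  obtain ⟨Y, hY⟩ : ∃ Y : ℤ, Y = min o.2 r.2 := ⟨_, rfl⟩
  have X1 : X ≤ o.1 := by rw [hX]; exact min_le_left _ _
  have X2 : X ≤ a.1 := by rw [hX]; exact min_le_right _ _
  have Y1 : Y ≤ o.2 := by rw [hY]; exact min_le_left _ _
  have Y2 : Y ≤ r.2 := by rw [hY]; exact min_le_right _ _
  have X3 : ∀ c : ℤ, c ≤ o.1 → c ≤ a.1 → c ≤ X := fun c h1 h2 => by rw [hX]; exact le_min h1 h2
  have Y3 : ∀ c : ℤ, c ≤ o.2 → c ≤ r.2 → c ≤ Y := fun c h1 h2 => by rw [hY]; exact le_min h1 h2
  have XA : v.1 + A ≤ X := X3 _ hoA a1
  have YB : v.2 + B ≤ Y := Y3 _ hoB r1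
  have Xp : p.1 - K ≤ X := X3 _ (by linarith) (by linarith)
  have Ys : s.2 - K ≤ Y := Y3 _ (by linarith) (by linarith)
  have qX : ∀ q ∈ ct P K A B m v, X ≤ q.1 ∧ q.1 ≤ X + (m * K - K) := by
    intro q hq
    by_cases hqo : q = o
    · rw [hqo]
      exact ⟨X1, by linarith⟩
    · have h1 := (hoth q hq hqo).1
      refine ⟨by linarith, ?_⟩
      have h2 := col_ext h g00 ho hq
      have h3 := col_ext h g01 ha (in01 q hq hqo)
      rw [e0] at h2 h3
      have := X3 (q.1 - (m * K - K)) (by linarith) (by linarith)
      linarith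
  have qY : ∀ q ∈ ct P K A B m v, Y ≤ q.2 ∧ q.2 ≤ Y + (m * K - K) := by
    intro q hq
    by_cases hqo : q = o
    · rw [hqo]
      exact ⟨Y1, by linarith⟩
    · have h1 := (hoth q hq hqo).2
      refine ⟨by linarith, ?_⟩
      have h2 := row_ext h g00 ho hq
      have h3 := row_ext h g10 hr (in10 q hq hqo)
      rw [e0] at h2 h3
      have := Y3 (q.2 - (m * K - K)) (by linarith) (by linarith)
      linarith
  have hav : a ∉ ct P K A B m v := fun hh => by
    have := (M00 a).1 hh
    linarith
  have hrv : r ∉ ct P K A B m v := fun hh => by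
    have := (M00 r).1 hh
    linarith
  have hev : e ∉ ct P K A B m v := fun hh => by
    have := (M00 e).1 hh
    linarith
  have har : a ≠ r := by
    rintro rfl
    linarith
  have hae : a ≠ e := by
    rintro rfl
    linarith
  have hre : r ≠ e := by
    rintro rfl
    linarith
  -- the content of a window in the target
  have content : ∀ y, inR A B X Y y →
      ct P K A B m y = insert a (insert r (insert e (ct P K A B m v))) := by
    intro y hy
    obtain ⟨y1, y2, y3, y4⟩ := hy
    ext q
    rw [mem_insert, mem_insert, mem_insert]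
    constructor
    · intro hq
      have hq' := mem_ct.1 hq
      obtain ⟨b0, b1, b2, b3, b4⟩ := hq'
      by_cases c1 : q.1 < v.1 + (m * K + A)
      · by_cases c2 : q.2 < v.2 + (m * K + B)
        · exact Or.inr (Or.inr (Or.inr ((M00 q).2 ⟨b0, by linarith, c1, by linarith, c2⟩)))
        · push Not at c2
          have hq01 : q ∈ ct P K A B m (v.1, v.2 + K) :=
            (M01 q).2 ⟨b0, by linarith, c1, by linarith, by linarith⟩
          left
          obtain ⟨i, hi, i1, i2⟩ := row_slot h g01 hq01
          obtain ⟨j, hj, j1, j2⟩ := row_slot h g01 ha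
          simp only at i1 i2 j1 j2
          have hi2 : i = m - 1 := by
            by_contra hne
            have : (i : ℤ) + 2 ≤ m := by omega
            have : ((i : ℤ) + 2) * K ≤ m * K := mul_le_mul_of_nonneg_right this hK.le
            have : ((i : ℤ) + 2) * K = i * K + 2 * K := by ring
            linarith
          have hj2 : j = m - 1 := by
            by_contra hne
            have : (j : ℤ) + 2 ≤ m := by omega
            have : ((j : ℤ) + 2) * K ≤ m * K := mul_le_mul_of_nonneg_right this hK.le
            have : ((j : ℤ) + 2) * K = j * K + 2 * K := by ring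
            linarith
          rw [hi2, hm1, e0] at i1 i2
          rw [hj2, hm1, e0] at j1 j2
          refine row_inj h g01 (i := m - 1) hq01 ha ?_ ?_ ?_ ?_ <;> rw [hm1, e0] <;> simp only <;>
            linarith
      · push Not at c1
        by_cases c2 : q.2 < v.2 + (m * K + B)
        · have hq10 : q ∈ ct P K A B m (v.1 + K, v.2) :=
            (M10 q).2 ⟨b0, by linarith, by linarith, by linarith, c2⟩
          right; left
          obtain ⟨i, hi, i1, i2⟩ := col_slot h g10 hq10
          obtain ⟨j, hj, j1, j2⟩ := col_slot h g10 hr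
          simp only at i1 i2 j1 j2
          have hi2 : i = m - 1 := by
            by_contra hne
            have : (i : ℤ) + 2 ≤ m := by omega
            have : ((i : ℤ) + 2) * K ≤ m * K := mul_le_mul_of_nonneg_right this hK.le
            have : ((i : ℤ) + 2) * K = i * K + 2 * K := by ring
            linarith
          have hj2 : j = m - 1 := by
            by_contra hne
            have : (j : ℤ) + 2 ≤ m := by omega
            have : ((j : ℤ) + 2) * K ≤ m * K := mul_le_mul_of_nonneg_right this hK.le
            have : ((j : ℤ) + 2) * K = j * K + 2 * K := by ring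
            linarith
          rw [hi2, hm1, e0] at i1 i2
          rw [hj2, hm1, e0] at j1 j2
          refine col_inj h g10 (i := m - 1) hq10 hr ?_ ?_ ?_ ?_ <;> rw [hm1, e0] <;> simp only <;>
            linarith
        · push Not at c2
          have hq11 : q ∈ ct P K A B m (v.1 + K, v.2 + K) :=
            (M11 q).2 ⟨b0, by linarith, by linarith, by linarith, by linarith⟩
          right; right; left
          obtain ⟨i, hi, i1, i2⟩ := col_slot h g11 hq11
          simp only at i1 i2
          have hi2 : i = m - 1 := by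
            by_contra hne
            have : (i : ℤ) + 2 ≤ m := by omega
            have : ((i : ℤ) + 2) * K ≤ m * K := mul_le_mul_of_nonneg_right this hK.le
            have : ((i : ℤ) + 2) * K = i * K + 2 * K := by ring
            linarith
          rw [hi2, hm1, e0] at i1 i2
          refine col_inj h g11 (i := m - 1) hq11 he ?_ ?_ ?_ ?_ <;> rw [hm1, e0] <;> simp only <;>
            linarith
    · rintro (hq | hq | hq | hq)
      · rw [hq, mem_ct]
        exact ⟨ha'.1, by linarith, by linarith, by linarith, by linarith⟩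
      · rw [hq, mem_ct]
        exact ⟨hr'.1, by linarith, by linarith, by linarith, by linarith⟩
      · rw [hq, mem_ct]
        exact ⟨he'.1, by linarith, by linarith, by linarith, by linarith⟩
      · rw [mem_ct]
        have h1 := (M00 q).1 hq
        have h2 := qX q hq
        have h3 := qY q hq
        exact ⟨h1.1, by linarith, by linarith, by linarith, by linarith⟩
  have hcard : ∀ y, inR A B X Y y → (ct P K A B m y).card = m + 3 := by
    intro y hy
    rw [content y hy, card_insert_of_notMem, card_insert_of_notMem, card_insert_of_notMem hev]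
    · have : (ct P K A B m v).card = m := g00
      omega
    · rw [mem_insert, not_or]
      exact ⟨hre, hrv⟩
    · rw [mem_insert, mem_insert, not_or, not_or]
      exact ⟨har, hae, hav⟩
  -- the strips
  have strips : ∀ y, inR A B X Y y → (o ∈ Hs P K A B m true y ∧ a ∈ Hs P K A B m true y) ∧
      (r ∈ Hs P K A B m false y ∧ e ∈ Hs P K A B m false y) ∧
      (o ∈ Vs P K A B m true y ∧ r ∈ Vs P K A B m true y) ∧
      (a ∈ Vs P K A B m false y ∧ e ∈ Vs P K A B m false y) := by
    intro y hy
    have hcy := content y hy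
    have oy : o ∈ ct P K A B m y := by
      rw [hcy]
      exact mem_insert_of_mem (mem_insert_of_mem (mem_insert_of_mem ho))
    have ay : a ∈ ct P K A B m y := by
      rw [hcy]
      exact mem_insert_self _ _
    have ry : r ∈ ct P K A B m y := by
      rw [hcy]
      exact mem_insert_of_mem (mem_insert_self _ _)
    have ey : e ∈ ct P K A B m y := by
      rw [hcy]
      exact mem_insert_of_mem (mem_insert_of_mem (mem_insert_self _ _))
    obtain ⟨y1, y2, y3, y4⟩ := hy
    simp only [mem_Hs, mem_Vs, e0, if_true, Bool.false_eq_true, if_false]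
    refine ⟨⟨⟨oy, by linarith⟩, ay, by linarith⟩, ⟨⟨ry, by linarith⟩, ey, by linarith⟩,
      ⟨⟨oy, by linarith⟩, ry, by linarith⟩, ⟨ay, by linarith⟩, ey, by linarith⟩
  refine ⟨X, Y, g00, by linarith, by linarith, by linarith, by linarith, hcard, ?_, ?_⟩
  · intro y hy
    have hcy := content y hy
    have st := strips y hy
    ext q
    rw [mem_Mt]
    constructor
    · intro hq
      have h2 := qX q hq
      have h3 := qY q hq
      refine ⟨?_, ?_, ?_⟩
      · rw [hcy]
        exact mem_insert_of_mem (mem_insert_of_mem (mem_insert_of_mem hq))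
      · rw [mem_Hs]
        rintro ⟨_, h4⟩
        simp only [Bool.false_eq_true, if_false, e0] at h4
        linarith [hy.1, hy.2.1]
      · rw [mem_Vs]
        rintro ⟨_, h4⟩
        simp only [Bool.false_eq_true, if_false, e0] at h4
        linarith [hy.2.2.1, hy.2.2.2]
    · rintro ⟨hq, hH, hV⟩
      rw [hcy, mem_insert, mem_insert, mem_insert] at hq
      rcases hq with hq | hq | hq | hq
      · exact absurd (hq ▸ st.2.2.2.1) hV
      · exact absurd (hq ▸ st.2.1.1) hH
      · exact absurd (hq ▸ st.2.1.2) hH
      · exact hq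
  · intro y hy
    refine ⟨p, hp, fun t ht => ?_⟩
    have hcy := content y hy
    have st := strips y hy
    have py : p ∈ ct P K A B m y := by
      rw [hcy]
      exact mem_insert_of_mem (mem_insert_of_mem (mem_insert_of_mem hp))
    have hpa : p ≠ a := fun hh => hav (hh ▸ hp)
    have hpr : p ≠ r := fun hh => hrv (hh ▸ hp)
    have hpe : p ≠ e := fun hh => hev (hh ▸ hp)
    have hoa : o ≠ a := fun hh => hav (hh ▸ ho)
    have hor : o ≠ r := fun hh => hrv (hh ▸ ho)
    have hoe : o ≠ e := fun hh => hev (hh ▸ ho)
    by_contra hcon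
    have hpU : p ∈ Hs P K A B m t.1 y ∪ Vs P K A B m t.2 y := by
      by_contra hh
      rw [mem_union, not_or] at hh
      exact hcon (mem_Mt.2 ⟨py, hh⟩)
    have hsub : Hs P K A B m t.1 y ∪ Vs P K A B m t.2 y ⊆ ct P K A B m y := by
      apply union_subset
      · exact filter_subset _ _
      · exact filter_subset _ _
    have hU : (Hs P K A B m t.1 y ∪ Vs P K A B m t.2 y).card = 3 := by
      have h1 := card_sdiff_add_card_eq_card hsub
      have h2 := hcard y hy
      unfold Mt at ht
      omega
    -- four distinct elements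
    have four : ∀ c1 c2 c3 : Z2, c1 ≠ c2 → c1 ≠ c3 → c2 ≠ c3 → p ≠ c1 → p ≠ c2 → p ≠ c3 →
        c1 ∈ Hs P K A B m t.1 y ∪ Vs P K A B m t.2 y →
        c2 ∈ Hs P K A B m t.1 y ∪ Vs P K A B m t.2 y →
        c3 ∈ Hs P K A B m t.1 y ∪ Vs P K A B m t.2 y → False := by
      intro c1 c2 c3 d1 d2 d3 d4 d5 d6 i1 i2 i3
      have hss : ({p, c1, c2, c3} : Finset Z2) ⊆ Hs P K A B m t.1 y ∪ Vs P K A B m t.2 y := by
        intro x hx
        rw [mem_insert, mem_insert, mem_insert, mem_singleton] at hx
        rcases hx with rfl | rfl | rfl | rfl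
        · exact hpU
        · exact i1
        · exact i2
        · exact i3
      have hc4 : ({p, c1, c2, c3} : Finset Z2).card = 4 := by
        rw [card_insert_of_notMem, card_insert_of_notMem, card_insert_of_notMem, card_singleton]
        · rw [mem_singleton]
          exact d3
        · rw [mem_insert, mem_singleton, not_or]
          exact ⟨d1, d2⟩
        · rw [mem_insert, mem_insert, mem_singleton, not_or, not_or]
          exact ⟨d4, d5, d6⟩
      have := card_le_card hss
      omega
    obtain ⟨i, j⟩ := t
    cases i <;> cases j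
    · exact four a r e har hae hre hpa hpr hpe (mem_union_right _ st.2.2.2.1)
        (mem_union_left _ st.2.1.1) (mem_union_left _ st.2.1.2)
    · exact four o r e hor hoe hre hpo hpr hpe (mem_union_right _ st.2.2.1.1)
        (mem_union_left _ st.2.1.1) (mem_union_left _ st.2.1.2)
    · exact four o a e hoa hoe hae hpo hpa hpe (mem_union_left _ st.1.1)
        (mem_union_left _ st.1.2) (mem_union_right _ st.2.2.2.2)
    · exact four o a r hoa hor har hpo hpa hpr (mem_union_left _ st.1.1)
        (mem_union_left _ st.1.2) (mem_union_right _ st.2.2.1.2)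

end Prc24
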