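import Pool.Agent.Prc92s.Pos

/-!
# The pointwise bound
-/

namespace Prc24

open Finset Classical

variable {P : Set Z2} {K A B : ℤ} {m : ℕ}

/-- chosen target rectangles -/
structure Ch (P : Set Z2) (K A B : ℤ) (m : ℕ) (X Y : Bool × Bool → Z2 → ℤ) (X' Y' : Z2 → ℤ) :
    Prop where
  cl : ∀ t v, cc P K A B m t v → Cl P K A B m t v (X t v) (Y t v)
  cf : ∀ v, K1 P K A B m v → Cf P K A B m v (X' v) (Y' v)

section
variable (P : Set Z2) (K A B : ℤ) (m : ℕ) (X Y : Bool × Bool → Z2 → ℤ) (X' Y' : Z2 → ℤ)

/-- claims of type `t` on `y` -/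
noncomputable def VV (t : Bool × Bool) (y : Z2) : Finset Z2 :=
  (DD K).filter (fun d => cc P K A B m t (y - d) ∧ inR A B (X t (y - d)) (Y t (y - d)) y)

/-- level two claims on `y` -/
noncomputable def WW (y : Z2) : Finset Z2 :=
  (DD K).filter (fun d => K1 P K A B m (y - d) ∧ inR A B (X' (y - d)) (Y' (y - d)) y)

end

variable {X Y : Bool × Bool → Z2 → ℤ} {X' Y' : Z2 → ℤ}

lemma mem_VV {t : Bool × Bool} {y d : Z2} : d ∈ VV P K A B m X Y t y ↔ d ∈ DD K ∧
    cc P K A B m t (y - d) ∧ inR A B (X t (y - d)) (Y t (y - d)) y := by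
  unfold VV
  rw [mem_filter]

lemma mem_WW {y d : Z2} : d ∈ WW P K A B m X' Y' y ↔ d ∈ DD K ∧
    K1 P K A B m (y - d) ∧ inR A B (X' (y - d)) (Y' (y - d)) y := by
  unfold WW
  rw [mem_filter]

lemma VV_sub (h : Prc P K A B m) (hC : Ch P K A B m X Y X' Y') {t : Bool × Bool} {y p q : Z2}
    (hp : p ∈ Mt P K A B m t y) (hq : q ∈ Mt P K A B m t y) :
    VV P K A B m X Y t y ⊆ Dp K A B y p q := by
  intro d hd
  obtain ⟨hd, hc, hr⟩ := mem_VV.1 hd
  have hcl := hC.cl t (y - d) hc
  rw [← hcl.ctq y hr] at hp hq
  exact mem_Dp hd (res_col h hcl.gd hp) (res_row h hcl.gd hq)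

lemma WW_sub (h : Prc P K A B m) (hC : Ch P K A B m X Y X' Y') {y p q : Z2}
    (hp : p ∈ Mt P K A B m (false, false) y) (hq : q ∈ Mt P K A B m (false, false) y) :
    WW P K A B m X' Y' y ⊆ Dp K A B y p q := by
  intro d hd
  obtain ⟨hd, hc, hr⟩ := mem_WW.1 hd
  have hcl := hC.cf (y - d) hc
  rw [← hcl.ctq y hr] at hp hq
  have e : sh K (false, false) (y - d) = y - d := by
    unfold sh
    simp only [Bool.false_eq_true, if_false, add_zero]
  exact mem_Dp hd (res_col (t := (false, false)) h (by rw [e]; exact hcl.gd) (by rw [e]; exact hp))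
    (res_row (t := (false, false)) h (by rw [e]; exact hcl.gd) (by rw [e]; exact hq))

/-- an active type has a content with `m` points -/
lemma card_Mt (hC : Ch P K A B m X Y X' Y') {t : Bool × Bool} {y d : Z2}
    (hd : d ∈ VV P K A B m X Y t y) : (Mt P K A B m t y).card = m := by
  obtain ⟨hd, hc, hr⟩ := mem_VV.1 hd
  have hcl := hC.cl t (y - d) hc
  rw [← hcl.ctq y hr]
  exact hcl.gd

lemma x_nonneg (h : Prc P K A B m) : (0 : ℝ) ≤ ((K : ℝ) - A) * (K - B) := by
  have h1 : (0 : ℝ) < (K : ℝ) - A := by
    have := h.AK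
    have : (A : ℝ) < K := by exact_mod_cast this
    linarith
  have h2 : (0 : ℝ) < (K : ℝ) - B := by
    have := h.BK
    have : (B : ℝ) < K := by exact_mod_cast this
    linarith
  positivity

/-- types whose claims lie in one set of displacements -/
lemma reg_common (h : Prc P K A B m) (T : Finset (Bool × Bool)) {y p q : Z2}
    (hT : ∀ t ∈ T, VV P K A B m X Y t y ⊆ Dp K A B y p q) :
    ∑ t ∈ T, ∑ d ∈ VV P K A B m X Y t y, om P K A B m (y - d) ≤ ((K : ℝ) - A) * (K - B) := by
  have h1 : ∀ t ∈ T, ∑ d ∈ VV P K A B m X Y t y, om P K A B m (y - d) ≤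
      ∑ d ∈ Dp K A B y p q, (if cc P K A B m t (y - d) then om P K A B m (y - d) else 0) := by
    intro t ht
    have h2 : ∑ d ∈ VV P K A B m X Y t y, om P K A B m (y - d) =
        ∑ d ∈ VV P K A B m X Y t y,
          (if cc P K A B m t (y - d) then om P K A B m (y - d) else 0) := by
      refine sum_congr rfl fun d hd => ?_
      rw [if_pos (mem_VV.1 hd).2.1]
    rw [h2]
    refine sum_le_sum_of_subset_of_nonneg (hT t ht) fun d _ _ => ?_
    split_ifs
    · exact om_nonneg _
    · exact le_rfl
  calc ∑ t ∈ T, ∑ d ∈ VV P K A B m X Y t y, om P K A B m (y - d)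
      ≤ ∑ t ∈ T, ∑ d ∈ Dp K A B y p q,
          (if cc P K A B m t (y - d) then om P K A B m (y - d) else 0) := sum_le_sum h1
    _ = ∑ d ∈ Dp K A B y p q, ∑ t ∈ T,
          (if cc P K A B m t (y - d) then om P K A B m (y - d) else 0) := sum_comm
    _ ≤ ∑ d ∈ Dp K A B y p q, (1 : ℝ) := by
        refine sum_le_sum fun d _ => ?_
        calc ∑ t ∈ T, (if cc P K A B m t (y - d) then om P K A B m (y - d) else 0)
            ≤ ∑ t : Bool × Bool, (if cc P K A B m t (y - d) then om P K A B m (y - d) else 0) := by
              refine sum_le_sum_of_subset_of_nonneg (subset_univ _) fun t _ _ => ?_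
              split_ifs
              · exact om_nonneg _
              · exact le_rfl
          _ ≤ 1 := by
              rw [sum_cc_om]
              exact nf_mul_om _
    _ = ((Dp K A B y p q).card : ℝ) := by simp
    _ ≤ ((K : ℝ) - A) * (K - B) := card_Dp h.AK h.BK h.A0 y p q

/-- one type alone -/
lemma reg_one (h : Prc P K A B m) (hC : Ch P K A B m X Y X' Y') (t : Bool × Bool) (y : Z2) :
    ∑ d ∈ VV P K A B m X Y t y, om P K A B m (y - d) ≤ ((K : ℝ) - A) * (K - B) := by
  by_cases he : (VV P K A B m X Y t y).Nonempty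
  · obtain ⟨d, hd⟩ := he
    have hc := card_Mt hC hd
    have hm := h.m2
    obtain ⟨p, hp⟩ : (Mt P K A B m t y).Nonempty := by
      rw [← card_pos]
      omega
    have := reg_common h {t} (p := p) (q := p) (y := y) (X := X) (Y := Y) (by
      intro s hs
      rw [mem_singleton] at hs
      rw [hs]
      exact VV_sub h hC hp hp)
    simpa using this
  · rw [not_nonempty_iff_eq_empty] at he
    rw [he, sum_empty]
    exact x_nonneg h

/-- one type alone, `m = 2` -/
lemma reg_half (h : Prc P K A B m) (hm2 : m = 2) (hC : Ch P K A B m X Y X' Y') (t : Bool × Bool)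
    (y : Z2) :
    ∑ d ∈ VV P K A B m X Y t y, om P K A B m (y - d) ≤ ((K : ℝ) - A) * (K - B) / 2 := by
  by_cases he : (VV P K A B m X Y t y).Nonempty
  · obtain ⟨d, hd⟩ := he
    have hc := card_Mt hC hd
    have hm := h.m2
    obtain ⟨p, hp⟩ : (Mt P K A B m t y).Nonempty := by
      rw [← card_pos]
      omega
    have h1 := card_le_card (VV_sub h hC hp hp)
    have h2 := card_Dp h.AK h.BK h.A0 y p p
    have h3 : ((VV P K A B m X Y t y).card : ℝ) ≤ ((Dp K A B y p p).card : ℝ) := by exact_mod_cast h1
    calc ∑ d ∈ VV P K A B m X Y t y, om P K A B m (y - d)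
        ≤ ∑ d ∈ VV P K A B m X Y t y, (1 / 2 : ℝ) := sum_le_sum fun d _ => om_le_half hm2 _
      _ = (VV P K A B m X Y t y).card * (1 / 2 : ℝ) := by rw [sum_const, nsmul_eq_mul]
      _ ≤ ((K : ℝ) - A) * (K - B) / 2 := by linarith
  · rw [not_nonempty_iff_eq_empty] at he
    rw [he, sum_empty]
    have := x_nonneg h
    linarith

lemma Hs_sub (i : Bool) (y : Z2) : Hs P K A B m i y ⊆ ct P K A B m y := filter_subset _ _
lemma Vs_sub (j : Bool) (y : Z2) : Vs P K A B m j y ⊆ ct P K A B m y := filter_subset _ _

/-- the complement of the content of an active type -/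
lemma card_compl (hC : Ch P K A B m X Y X' Y') {t : Bool × Bool} {y d : Z2}
    (hd : d ∈ VV P K A B m X Y t y) :
    (Hs P K A B m t.1 y ∪ Vs P K A B m t.2 y).card + m = f P K A B m y := by
  have h1 := card_Mt hC hd
  have h2 := card_sdiff_add_card_eq_card
    (union_subset (Hs_sub (P := P) (K := K) (A := A) (B := B) (m := m) t.1 y) (Vs_sub t.2 y))
  unfold Mt at h1
  unfold f
  omega

/-- an active type forces `m + 2 ≤ f y` -/
lemma f_of_VV (hC : Ch P K A B m X Y X' Y') {t : Bool × Bool} {y d : Z2}
    (hd : d ∈ VV P K A B m X Y t y) : m + 2 ≤ f P K A B m y := by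
  obtain ⟨hd, hc, hr⟩ := mem_VV.1 hd
  exact (hC.cl t (y - d) hc).f2 y hr

/-- two sides of the same height, `m ≥ 3` -/
lemma reg_pair (h : Prc P K A B m) (hm3 : 3 ≤ m) (hC : Ch P K A B m X Y X' Y') (j : Bool)
    (y : Z2) : ∑ t ∈ ({(false, j), (true, j)} : Finset (Bool × Bool)),
      ∑ d ∈ VV P K A B m X Y t y, om P K A B m (y - d) ≤ ((K : ℝ) - A) * (K - B) := by
  by_cases h0 : (VV P K A B m X Y (false, j) y).Nonempty
  · obtain ⟨d, hd⟩ := h0
    obtain ⟨_, hc, hr⟩ := mem_VV.1 hd
    have hcl := hC.cl _ (y - d) hc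
    obtain ⟨p, hp⟩ := hcl.pr y hr hm3
    rw [mem_sdiff, hcl.ctq y hr, mem_Mt] at hp
    simp only [Bool.not_false] at hp
    have hp0 : p ∈ Mt P K A B m (false, j) y := mem_Mt.2 hp.1
    have hp1 : p ∈ Mt P K A B m (true, j) y := mem_Mt.2 ⟨hp.1.1, hp.2, hp.1.2.2⟩
    refine reg_common h _ (p := p) (q := p) fun t ht => ?_
    rw [mem_insert, mem_singleton] at ht
    rcases ht with rfl | rfl
    · exact VV_sub h hC hp0 hp0
    · exact VV_sub h hC hp1 hp1
  · rw [not_nonempty_iff_eq_empty] at h0
    rw [sum_insert (by simp), sum_singleton, h0, sum_empty, zero_add]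
    exact reg_one h hC _ _

/-- total of the regular claims as a sum over types -/
lemma univ_types (g : Bool × Bool → ℝ) : ∑ t : Bool × Bool, g t =
    g (false, false) + g (true, false) + g (false, true) + g (true, true) := by
  rw [Fintype.sum_prod_type]
  simp
  ring

private lemma cover1 (i j : Bool) {x y : Z2} (hx : x ∈ Hs P K A B m i y ∪ Vs P K A B m j y) :
    x ∈ (Hs P K A B m false y ∪ Vs P K A B m false y) ∪ (Hs P K A B m true y ∪ Vs P K A B m true y) := by
  rcases mem_union.1 hx with h | h
  · cases i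
    · exact mem_union_left _ (mem_union_left _ h)
    · exact mem_union_right _ (mem_union_left _ h)
  · cases j
    · exact mem_union_left _ (mem_union_right _ h)
    · exact mem_union_right _ (mem_union_right _ h)

private lemma cover2 (i j : Bool) {x y : Z2} (hx : x ∈ Hs P K A B m i y ∪ Vs P K A B m j y) :
    x ∈ (Hs P K A B m true y ∪ Vs P K A B m false y) ∪ (Hs P K A B m false y ∪ Vs P K A B m true y) := by
  rcases mem_union.1 hx with h | h
  · cases i
    · exact mem_union_right _ (mem_union_left _ h)
    · exact mem_union_left _ (mem_union_left _ h)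
  · cases j
    · exact mem_union_left _ (mem_union_right _ h)
    · exact mem_union_right _ (mem_union_right _ h)

private lemma cover3 {U : Bool × Bool → Finset Z2} (t : Bool × Bool) {x : Z2} (hx : x ∈ U t) :
    x ∈ (U (false, false) ∪ U (true, true)) ∪ (U (true, false) ∪ U (false, true)) := by
  obtain ⟨i, j⟩ := t
  cases i <;> cases j
  · exact mem_union_left _ (mem_union_left _ hx)
  · exact mem_union_right _ (mem_union_right _ hx)
  · exact mem_union_right _ (mem_union_left _ hx)
  · exact mem_union_left _ (mem_union_right _ hx)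

/-- `τ = 1`, `m ≥ 3` -/
lemma reg_tau1 (h : Prc P K A B m) (hm3 : 3 ≤ m) (hC : Ch P K A B m X Y X' Y') {y : Z2}
    (hy : f P K A B m y = m + 2) :
    ∑ t : Bool × Bool, ∑ d ∈ VV P K A B m X Y t y, om P K A B m (y - d) ≤
      ((K : ℝ) - A) * (K - B) := by
  -- complement sets
  obtain ⟨U, hU⟩ : ∃ U : Bool × Bool → Finset Z2, U = fun t =>
    if (VV P K A B m X Y t y).Nonempty then Hs P K A B m t.1 y ∪ Vs P K A B m t.2 y else ∅ := ⟨_, rfl⟩
  have hUc : ∀ t, (U t).card ≤ 2 := by
    intro t
    rw [hU]
    simp only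
    split_ifs with hne
    · obtain ⟨d, hd⟩ := hne
      have := card_compl hC hd
      omega
    · simp
  have hmain : ∃ U1 U2 : Finset Z2, U1.card ≤ 2 ∧ U2.card ≤ 2 ∧ ∀ t, U t ⊆ U1 ∪ U2 := by
    by_cases hd1 : (VV P K A B m X Y (false, false) y).Nonempty ∧
        (VV P K A B m X Y (true, true) y).Nonempty
    · refine ⟨U (false, false), U (true, true), hUc _, hUc _, fun t => ?_⟩
      have e1 : U (false, false) = Hs P K A B m false y ∪ Vs P K A B m false y := by
        rw [hU]
        simp only
        rw [if_pos hd1.1]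
      have e2 : U (true, true) = Hs P K A B m true y ∪ Vs P K A B m true y := by
        rw [hU]
        simp only
        rw [if_pos hd1.2]
      rw [e1, e2, hU]
      simp only
      split_ifs
      · exact fun x hx => cover1 _ _ hx
      · exact empty_subset _
    · by_cases hd2 : (VV P K A B m X Y (true, false) y).Nonempty ∧
        (VV P K A B m X Y (false, true) y).Nonempty
      · refine ⟨U (true, false), U (false, true), hUc _, hUc _, fun t => ?_⟩
        have e1 : U (true, false) = Hs P K A B m true y ∪ Vs P K A B m false y := by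
          rw [hU]
          simp only
          rw [if_pos hd2.1]
        have e2 : U (false, true) = Hs P K A B m false y ∪ Vs P K A B m true y := by
          rw [hU]
          simp only
          rw [if_pos hd2.2]
        rw [e1, e2, hU]
        simp only
        split_ifs
        · exact fun x hx => cover2 _ _ hx
        · exact empty_subset _
      · refine ⟨U (false, false) ∪ U (true, true), U (true, false) ∪ U (false, true), ?_, ?_, ?_⟩
        · by_cases h0 : (VV P K A B m X Y (false, false) y).Nonempty
          · have : U (true, true) = ∅ := by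
              rw [hU]
              simp only
              rw [if_neg fun hh => hd1 ⟨h0, hh⟩]
            rw [this, union_empty]
            exact hUc _
          · have : U (false, false) = ∅ := by
              rw [hU]
              simp only
              rw [if_neg h0]
            rw [this, empty_union]
            exact hUc _
        · by_cases h0 : (VV P K A B m X Y (true, false) y).Nonempty
          · have : U (false, true) = ∅ := by
              rw [hU]
              simp only
              rw [if_neg fun hh => hd2 ⟨h0, hh⟩]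
            rw [this, union_empty]
            exact hUc _
          · have : U (true, false) = ∅ := by
              rw [hU]
              simp only
              rw [if_neg h0]
            rw [this, empty_union]
            exact hUc _
        · exact fun t x hx => cover3 t hx
  obtain ⟨U1, U2, h1, h2, h3⟩ := hmain
  obtain ⟨p, hp, hpn⟩ : ∃ p ∈ ct P K A B m y, p ∉ U1 ∪ U2 := by
    by_contra hcon
    push Not at hcon
    have hsub : ct P K A B m y ⊆ U1 ∪ U2 := fun x hx => hcon x hx
    have := card_le_card hsub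
    have := card_union_le U1 U2
    have hfc : (ct P K A B m y).card = m + 2 := hy
    omega
  refine reg_common h _ (p := p) (q := p) fun t _ => ?_
  by_cases hne : (VV P K A B m X Y t y).Nonempty
  · have hpU : p ∉ U t := fun hh => hpn (h3 t hh)
    rw [hU] at hpU
    simp only at hpU
    rw [if_pos hne, mem_union, not_or] at hpU
    have hpM : p ∈ Mt P K A B m t y := mem_Mt.2 ⟨hp, hpU⟩
    exact VV_sub h hC hpM hpM
  · rw [not_nonempty_iff_eq_empty] at hne
    rw [hne]
    exact empty_subset _

end Prc24
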