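import Pool.Agent.Prc92s.Point

/-!
# The pointwise bound, end
-/

namespace Prc24

open Finset Classical

variable {P : Set Z2} {K A B : ℤ} {m : ℕ}
variable {X Y : Bool × Bool → Z2 → ℤ} {X' Y' : Z2 → ℤ}

lemma disj_Hs (h : Prc P K A B m) {i : Bool} {x y : Z2} (h1 : x ∈ Hs P K A B m (!i) y) :
    x ∉ Hs P K A B m i y := by
  intro h2
  have hA := h.A0
  have hAK := h.AK
  have hm : (2 : ℤ) ≤ m := by exact_mod_cast h.m2
  have hmK : 2 * K ≤ m * K := mul_le_mul_of_nonneg_right hm (by linarith)
  have e : ((m : ℤ) - 1) * K = m * K - K := by ring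
  rw [mem_Hs] at h1 h2
  cases i
  · simp only [Bool.not_false, if_true, Bool.false_eq_true, if_false] at h1 h2
    linarith [h1.2, h2.2]
  · simp only [Bool.not_true, if_true, Bool.false_eq_true, if_false] at h1 h2
    linarith [h1.2, h2.2]

lemma disj_Vs (h : Prc P K A B m) {j : Bool} {x y : Z2} (h1 : x ∈ Vs P K A B m (!j) y) :
    x ∉ Vs P K A B m j y := by
  intro h2
  have hB := h.B0
  have hBK := h.BK
  have hm : (2 : ℤ) ≤ m := by exact_mod_cast h.m2
  have hmK : 2 * K ≤ m * K := mul_le_mul_of_nonneg_right hm (by linarith)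
  have e : ((m : ℤ) - 1) * K = m * K - K := by ring
  rw [mem_Vs] at h1 h2
  cases j
  · simp only [Bool.not_false, if_true, Bool.false_eq_true, if_false] at h1 h2
    linarith [h1.2, h2.2]
  · simp only [Bool.not_true, if_true, Bool.false_eq_true, if_false] at h1 h2
    linarith [h1.2, h2.2]

/-- the members of a two element set -/
private lemma two_mem {U : Finset Z2} (hU : U.card = 2) {a b x : Z2} (ha : a ∈ U) (hb : b ∈ U)
    (hab : a ≠ b) (hx : x ∈ U) : x = a ∨ x = b := by
  by_contra hcon
  push Not at hcon
  have hss : ({x, a, b} : Finset Z2) ⊆ U := by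
    intro z hz
    rw [mem_insert, mem_insert, mem_singleton] at hz
    rcases hz with rfl | rfl | rfl
    · exact hx
    · exact ha
    · exact hb
  have h3 : ({x, a, b} : Finset Z2).card = 3 := by
    rw [card_insert_of_notMem, card_insert_of_notMem, card_singleton]
    · rw [mem_singleton]
      exact hab
    · rw [mem_insert, mem_singleton, not_or]
      exact hcon
  have := card_le_card hss
  omega

/-- three active types, `m = 2`, `τ = 1` -/
lemma triple (h : Prc P K A B m) (hm2 : m = 2) (hC : Ch P K A B m X Y X' Y') {y : Z2}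
    (hy : f P K A B m y = m + 2) (i j : Bool)
    (a0 : (VV P K A B m X Y (i, j) y).Nonempty) (a1 : (VV P K A B m X Y (!i, j) y).Nonempty)
    (a2 : (VV P K A B m X Y (i, !j) y).Nonempty) :
    ∃ p q : Z2, ∀ t, VV P K A B m X Y t y ⊆ Dp K A B y p q := by
  obtain ⟨d0, hd0⟩ := a0
  obtain ⟨d1, hd1⟩ := a1
  obtain ⟨d2, hd2⟩ := a2
  have u0 := card_compl hC hd0
  have u1 := card_compl hC hd1
  have u2 := card_compl hC hd2
  obtain ⟨_, hc0, hr0⟩ := mem_VV.1 hd0
  obtain ⟨_, hc1, hr1⟩ := mem_VV.1 hd1
  obtain ⟨_, hc2, hr2⟩ := mem_VV.1 hd2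
  have C0 := hC.cl _ _ hc0
  have C1 := hC.cl _ _ hc1
  have C2 := hC.cl _ _ hc2
  obtain ⟨l, hl⟩ := C0.ne1 y hr0
  obtain ⟨b, hb⟩ := C0.ne2 y hr0
  obtain ⟨r, hr⟩ := C1.ne1 y hr1
  obtain ⟨s, hs⟩ := C2.ne2 y hr2
  simp only [Bool.not_not] at hl hb hr hs u0 u1 u2
  rw [mem_sdiff] at hl hb hr hs
  -- l in N, not F'; b in N', not F; r in F, not F'; s in F', not F
  have hlF : l ∉ Hs P K A B m i y := disj_Hs h hl.1
  have hbF' : b ∉ Vs P K A B m j y := disj_Vs h hb.1
  have hrN : r ∉ Hs P K A B m (!i) y := fun hh => disj_Hs h hh hr.1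
  have hsN' : s ∉ Vs P K A B m (!j) y := fun hh => disj_Vs h hh hs.1
  have hls : l ≠ s := fun hh => hl.2 (hh ▸ hs.1)
  have hbr : b ≠ r := fun hh => hb.2 (hh ▸ hr.1)
  have hrs : r ≠ s := fun hh => hr.2 (hh ▸ hs.1)
  have v0 : (Hs P K A B m i y ∪ Vs P K A B m j y).card = 2 := by omega
  have v1 : (Hs P K A B m (!i) y ∪ Vs P K A B m j y).card = 2 := by omega
  have v2 : (Hs P K A B m i y ∪ Vs P K A B m (!j) y).card = 2 := by omega
  have m0 : ∀ x ∈ Hs P K A B m i y ∪ Vs P K A B m j y, x = r ∨ x = s := fun x hx =>
    two_mem v0 (mem_union_left _ hr.1) (mem_union_right _ hs.1) hrs hx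
  have m1 : ∀ x ∈ Hs P K A B m (!i) y ∪ Vs P K A B m j y, x = l ∨ x = s := fun x hx =>
    two_mem v1 (mem_union_left _ hl.1) (mem_union_right _ hs.1) hls hx
  have m2 : ∀ x ∈ Hs P K A B m i y ∪ Vs P K A B m (!j) y, x = b ∨ x = r := fun x hx =>
    two_mem v2 (mem_union_right _ hb.1) (mem_union_left _ hr.1) hbr hx
  have memct : ∀ {i' : Bool} {x : Z2}, x ∈ Hs P K A B m i' y → x ∈ ct P K A B m y :=
    fun hx => Hs_sub _ _ hx
  have memct' : ∀ {j' : Bool} {x : Z2}, x ∈ Vs P K A B m j' y → x ∈ ct P K A B m y :=
    fun hx => Vs_sub _ _ hx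
  by_cases hcore : ∃ p ∈ ct P K A B m y, p ≠ l ∧ p ≠ b ∧ p ≠ r ∧ p ≠ s
  · obtain ⟨p, hp, n1, n2, n3, n4⟩ := hcore
    have c1 : ∀ i', p ∉ Hs P K A B m i' y := by
      intro i' hh
      by_cases hi : i' = i
      · rw [hi] at hh
        rcases m0 p (mem_union_left _ hh) with h' | h'
        · exact n3 h'
        · exact n4 h'
      · have : i' = !i := by
          cases i' <;> cases i <;> simp_all
        rw [this] at hh
        rcases m1 p (mem_union_left _ hh) with h' | h'
        · exact n1 h'
        · exact n4 h'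
    have c2 : ∀ j', p ∉ Vs P K A B m j' y := by
      intro j' hh
      by_cases hj : j' = j
      · rw [hj] at hh
        rcases m0 p (mem_union_right _ hh) with h' | h'
        · exact n3 h'
        · exact n4 h'
      · have : j' = !j := by
          cases j' <;> cases j <;> simp_all
        rw [this] at hh
        rcases m2 p (mem_union_right _ hh) with h' | h'
        · exact n2 h'
        · exact n3 h'
    refine ⟨p, p, fun t => ?_⟩
    have hpM : p ∈ Mt P K A B m t y := mem_Mt.2 ⟨hp, c1 _, c2 _⟩
    exact VV_sub h hC hpM hpM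
  · push Not at hcore
    have hsub : ct P K A B m y ⊆ {l, b, r, s} := by
      intro x hx
      rw [mem_insert, mem_insert, mem_insert, mem_singleton]
      by_contra hcon
      push Not at hcon
      exact hcon.2.2.2 (hcore x hx hcon.1 hcon.2.1 hcon.2.2.1)
    have hlb : l ≠ b := by
      intro hh
      have h1 := card_le_card hsub
      have h2 : ({l, b, r, s} : Finset Z2).card ≤ 3 := by
        rw [hh, insert_eq_of_mem (mem_insert_self _ _)]
        exact card_le_three
      have h3 : (ct P K A B m y).card = m + 2 := hy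
      omega
    have hbs : b ≠ s := fun hh => hsN' (hh ▸ hb.1)
    have hlr : l ≠ r := fun hh => hrN (hh ▸ hl.1)
    have hlN' : l ∉ Vs P K A B m (!j) y := by
      intro hh
      rcases m2 l (mem_union_right _ hh) with h' | h'
      · exact hlb h'
      · exact hlr h'
    have hbN : b ∉ Hs P K A B m (!i) y := by
      intro hh
      rcases m1 b (mem_union_left _ hh) with h' | h'
      · exact hlb h'.symm
      · exact hbs h'
    have hlV : ∀ j', l ∉ Vs P K A B m j' y := by
      intro j'
      by_cases hj : j' = j
      · rw [hj]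
        exact hl.2
      · have : j' = !j := by
          cases j' <;> cases j <;> simp_all
        rw [this]
        exact hlN'
    have hbH : ∀ i', b ∉ Hs P K A B m i' y := by
      intro i'
      by_cases hi : i' = i
      · rw [hi]
        exact hb.2
      · have : i' = !i := by
          cases i' <;> cases i <;> simp_all
        rw [this]
        exact hbN
    -- memberships in the contents
    have l0 : l ∈ ct P K A B m (sh K (i, j) (y - d0)) := by
      rw [C0.ctq y hr0, mem_Mt]
      exact ⟨memct hl.1, hlF, hlV _⟩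
    have b0 : b ∈ ct P K A B m (sh K (i, j) (y - d0)) := by
      rw [C0.ctq y hr0, mem_Mt]
      exact ⟨memct' hb.1, hbH _, hbF'⟩
    have b1 : b ∈ ct P K A B m (sh K (!i, j) (y - d1)) := by
      rw [C1.ctq y hr1, mem_Mt]
      exact ⟨memct' hb.1, hbH _, hbF'⟩
    have r1 : r ∈ ct P K A B m (sh K (!i, j) (y - d1)) := by
      rw [C1.ctq y hr1, mem_Mt]
      exact ⟨memct hr.1, hrN, hr.2⟩
    have l2 : l ∈ ct P K A B m (sh K (i, !j) (y - d2)) := by
      rw [C2.ctq y hr2, mem_Mt]
      exact ⟨memct hl.1, hlF, hlV _⟩
    have s2 : s ∈ ct P K A B m (sh K (i, !j) (y - d2)) := by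
      rw [C2.ctq y hr2, mem_Mt]
      exact ⟨memct' hs.1, hs.2, hsN'⟩
    have eK : ((m : ℤ) - 1) * K = K := by
      rw [hm2]
      push_cast
      ring
    have hK : 0 < K := by linarith [h.A0, h.AK]
    have x1 := col_ext h C0.gd l0 b0
    have x2 := col_ext h C0.gd b0 l0
    have x3 := col_ext h C1.gd b1 r1
    have x4 := col_ext h C1.gd r1 b1
    have x5 := col_ext h C2.gd l2 s2
    have x6 := col_ext h C2.gd s2 l2
    have y1 := row_ext h C0.gd l0 b0
    have y2 := row_ext h C0.gd b0 l0
    have y3 := row_ext h C1.gd b1 r1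
    have y4 := row_ext h C1.gd r1 b1
    have y5 := row_ext h C2.gd l2 s2
    have y6 := row_ext h C2.gd s2 l2
    rw [eK] at x1 x2 x3 x4 x5 x6 y1 y2 y3 y4 y5 y6
    have allx : ∀ q ∈ ct P K A B m y, q.1 ≤ l.1 + 2 * K ∧ l.1 ≤ q.1 + 2 * K := by
      intro q hq
      have := hsub hq
      rw [mem_insert, mem_insert, mem_insert, mem_singleton] at this
      rcases this with rfl | rfl | rfl | rfl
      · constructor <;> linarith
      · constructor <;> linarith
      · constructor <;> linarith
      · constructor <;> linarith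
    have ally : ∀ q ∈ ct P K A B m y, q.2 ≤ b.2 + 2 * K ∧ b.2 ≤ q.2 + 2 * K := by
      intro q hq
      have := hsub hq
      rw [mem_insert, mem_insert, mem_insert, mem_singleton] at this
      rcases this with rfl | rfl | rfl | rfl
      · constructor <;> linarith
      · constructor <;> linarith
      · constructor <;> linarith
      · constructor <;> linarith
    refine ⟨l, b, fun t d hd => ?_⟩
    obtain ⟨hdD, hc, hr'⟩ := mem_VV.1 hd
    have Cl' := hC.cl _ _ hc
    have hin : ∀ q ∈ ct P K A B m (sh K t (y - d)), q ∈ ct P K A B m y := by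
      intro q hq
      rw [Cl'.ctq y hr', mem_Mt] at hq
      exact hq.1
    refine mem_Dp hdD ?_ ?_
    · by_cases hi : t.1 = i
      · refine res_col h Cl'.gd (t := t) ?_
        rw [Cl'.ctq y hr', mem_Mt, hi]
        exact ⟨memct hl.1, hlF, hlV _⟩
      · have hti : t.1 = !i := by
          cases i <;> cases h' : t.1 <;> simp_all
        refine posX h hm2 hti Cl' hr' hl.1 (hlV _) fun q hq => ?_
        have := allx q (hin q hq)
        split_ifs
        · exact this.2
        · exact this.1
    · by_cases hj : t.2 = j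
      · refine res_row h Cl'.gd (t := t) ?_
        rw [Cl'.ctq y hr', mem_Mt, hj]
        exact ⟨memct' hb.1, hbH _, hbF'⟩
      · have htj : t.2 = !j := by
          cases j <;> cases h' : t.2 <;> simp_all
        refine posY h hm2 htj Cl' hr' hb.1 (hbH _) fun q hq => ?_
        have := ally q (hin q hq)
        split_ifs
        · exact this.2
        · exact this.1

/-- `τ = 1`, `m = 2` -/
lemma reg_tau1' (h : Prc P K A B m) (hm2 : m = 2) (hC : Ch P K A B m X Y X' Y') {y : Z2}
    (hy : f P K A B m y = m + 2) :
    ∑ t : Bool × Bool, ∑ d ∈ VV P K A B m X Y t y, om P K A B m (y - d) ≤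
      ((K : ℝ) - A) * (K - B) := by
  by_cases htr : ∃ i j : Bool, (VV P K A B m X Y (i, j) y).Nonempty ∧
      (VV P K A B m X Y (!i, j) y).Nonempty ∧ (VV P K A B m X Y (i, !j) y).Nonempty
  · obtain ⟨i, j, a0, a1, a2⟩ := htr
    obtain ⟨p, q, hpq⟩ := triple h hm2 hC hy i j a0 a1 a2
    exact reg_common h _ (p := p) (q := q) fun t _ => hpq t
  · push Not at htr
    rw [univ_types]
    have zero : ∀ t, VV P K A B m X Y t y = ∅ →
        ∑ d ∈ VV P K A B m X Y t y, om P K A B m (y - d) = 0 := by
      intro t ht
      rw [ht, sum_empty]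
    have c1 := htr false false
    have c2 := htr true false
    have c3 := htr false true
    have c4 := htr true true
    simp only [Bool.not_false, Bool.not_true, Finset.not_nonempty_iff_eq_empty] at c1 c2 c3 c4
    have b1 := reg_half h hm2 hC (false, false) y
    have b2 := reg_half h hm2 hC (true, false) y
    have b3 := reg_half h hm2 hC (false, true) y
    have b4 := reg_half h hm2 hC (true, true) y
    have x0 := x_nonneg h
    by_cases e1 : (VV P K A B m X Y (false, false) y).Nonempty
    · by_cases e2 : (VV P K A B m X Y (true, false) y).Nonempty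
      · have z3 := zero _ (c1 e1 e2)
        have z4 := zero _ (c2 e2 e1)
        linarith
      · rw [not_nonempty_iff_eq_empty] at e2
        have z2 := zero _ e2
        by_cases e3 : (VV P K A B m X Y (false, true) y).Nonempty
        · by_cases e4 : (VV P K A B m X Y (true, true) y).Nonempty
          · have := c3 e3 e4
            rw [this] at e1
            exact absurd e1 not_nonempty_empty
          · rw [not_nonempty_iff_eq_empty] at e4
            have z4 := zero _ e4
            linarith
        · rw [not_nonempty_iff_eq_empty] at e3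
          have z3 := zero _ e3
          linarith
    · rw [not_nonempty_iff_eq_empty] at e1
      have z1 := zero _ e1
      by_cases e2 : (VV P K A B m X Y (true, false) y).Nonempty
      · by_cases e3 : (VV P K A B m X Y (false, true) y).Nonempty
        · by_cases e4 : (VV P K A B m X Y (true, true) y).Nonempty
          · have := c4 e4 e3
            rw [this] at e2
            exact absurd e2 not_nonempty_empty
          · rw [not_nonempty_iff_eq_empty] at e4
            have z4 := zero _ e4
            linarith
        · rw [not_nonempty_iff_eq_empty] at e3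
          have z3 := zero _ e3
          linarith
      · rw [not_nonempty_iff_eq_empty] at e2
        have z2 := zero _ e2
        linarith

/-- the pointwise bound -/
theorem point (h : Prc P K A B m) (hC : Ch P K A B m X Y X' Y') (y : Z2) :
    ∑ t : Bool × Bool, ∑ d ∈ VV P K A B m X Y t y, om P K A B m (y - d) +
      ((WW P K A B m X' Y' y).card : ℝ) ≤
      ((K : ℝ) - A) * (K - B) * ((f P K A B m y - (m + 1) : ℕ) : ℝ) := by
  have x0 := x_nonneg h
  by_cases hW : (WW P K A B m X' Y' y).Nonempty
  · obtain ⟨d, hd⟩ := hW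
    obtain ⟨_, hc, hr⟩ := mem_WW.1 hd
    have C' := hC.cf _ hc
    have hf := C'.f3 y hr
    obtain ⟨p, hp, hpt⟩ := C'.pt y hr
    have hp0 : p ∈ Mt P K A B m (false, false) y := by
      rw [← C'.ctq y hr]
      exact hp
    have h1 : ((WW P K A B m X' Y' y).card : ℝ) ≤ ((K : ℝ) - A) * (K - B) := by
      have h2 := card_le_card (WW_sub h hC hp0 hp0)
      have h3 := card_Dp h.AK h.BK h.A0 y p p
      have h4 : ((WW P K A B m X' Y' y).card : ℝ) ≤ ((Dp K A B y p p).card : ℝ) := by
        exact_mod_cast h2
      linarith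
    have h2 : ∑ t : Bool × Bool, ∑ d ∈ VV P K A B m X Y t y, om P K A B m (y - d) ≤
        ((K : ℝ) - A) * (K - B) := by
      refine reg_common h _ (p := p) (q := p) fun t _ => ?_
      by_cases hne : (VV P K A B m X Y t y).Nonempty
      · obtain ⟨d', hd'⟩ := hne
        have hpM := hpt t (card_Mt hC hd')
        exact VV_sub h hC hpM hpM
      · rw [not_nonempty_iff_eq_empty] at hne
        rw [hne]
        exact empty_subset _
    have h3 : ((f P K A B m y - (m + 1) : ℕ) : ℝ) = 2 := by
      rw [hf]
      have : m + 3 - (m + 1) = 2 := by omega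
      rw [this]
      norm_num
    rw [h3]
    linarith
  · rw [not_nonempty_iff_eq_empty] at hW
    rw [hW, card_empty, Nat.cast_zero, add_zero]
    by_cases hact : ∃ t, (VV P K A B m X Y t y).Nonempty
    · obtain ⟨t0, d0, hd0⟩ := hact
      have hf2 := f_of_VV hC hd0
      by_cases hτ : f P K A B m y = m + 2
      · have h3 : ((f P K A B m y - (m + 1) : ℕ) : ℝ) = 1 := by
          rw [hτ]
          have : m + 2 - (m + 1) = 1 := by omega
          rw [this]
          norm_num
        rw [h3, mul_one]
        by_cases hm2 : m = 2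
        · exact reg_tau1' h hm2 hC hτ
        · have := h.m2
          exact reg_tau1 h (by omega) hC hτ
      · have h3 : (2 : ℝ) ≤ ((f P K A B m y - (m + 1) : ℕ) : ℝ) := by
          have : 2 ≤ f P K A B m y - (m + 1) := by omega
          exact_mod_cast this
        have h4 : ∑ t : Bool × Bool, ∑ d ∈ VV P K A B m X Y t y, om P K A B m (y - d) ≤
            ((K : ℝ) - A) * (K - B) * 2 := by
          by_cases hm2 : m = 2
          · rw [univ_types]
            have b1 := reg_half h hm2 hC (false, false) y
            have b2 := reg_half h hm2 hC (true, false) y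
            have b3 := reg_half h hm2 hC (false, true) y
            have b4 := reg_half h hm2 hC (true, true) y
            linarith
          · have hm := h.m2
            have b1 := reg_pair h (by omega) hC false y
            have b2 := reg_pair h (by omega) hC true y
            rw [sum_insert (by simp), sum_singleton] at b1 b2
            rw [univ_types]
            linarith
        calc _ ≤ ((K : ℝ) - A) * (K - B) * 2 := h4
          _ ≤ _ := mul_le_mul_of_nonneg_left h3 x0
    · push Not at hact
      have h0 : ∑ t : Bool × Bool, ∑ d ∈ VV P K A B m X Y t y, om P K A B m (y - d) = 0 := by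
        refine sum_eq_zero fun t _ => ?_
        rw [hact t, sum_empty]
      rw [h0]
      positivity

end Prc24
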