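import Pool.Agent.Prc92s.Face

/-!
# Positions for `m = 2` and weights
-/

namespace Prc24

open Finset Classical

variable {P : Set Z2} {K A B : ℤ} {m : ℕ}

/-- residue of the abscissa of a near point that does not belong to the window -/
lemma posX (h : Prc P K A B m) (hm2 : m = 2) {i : Bool} {t : Bool × Bool} (ht : t.1 = !i) {v y : Z2}
    {X Y : ℤ} (hC : Cl P K A B m t v X Y) (hy : inR A B X Y y) {l : Z2}
    (hl : l ∈ Hs P K A B m (!i) y) (hV : l ∉ Vs P K A B m t.2 y)
    (hq : ∀ q ∈ ct P K A B m (sh K t v), if i then l.1 ≤ q.1 + 2 * K else q.1 ≤ l.1 + 2 * K) :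
    A ≤ (l.1 - v.1) % K := by
  have hA0 := h.A0
  have hAK := h.AK
  have hB0 := h.B0
  have hBK := h.BK
  subst hm2
  obtain ⟨z1, z2, z3, z4⟩ := hy
  have hlc := hl
  rw [mem_Hs] at hlc
  obtain ⟨hlct, hlx⟩ := hlc
  obtain ⟨hlP, l1, l2, l3, l4⟩ := mem_ct.1 hlct
  have hx1 := hC.x1
  have hx2 := hC.x2
  have hy1 := hC.y1
  have hy2 := hC.y2
  have hnot : l ∉ ct P K A B 2 (sh K t v) := by
    rw [hC.ctq y ⟨z1, z2, z3, z4⟩, mem_Mt, ht]
    exact fun hh => hh.2.1 hl
  have s1 : (sh K t v).1 = v.1 + (if t.1 then K else 0) := rfl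
  have s2 : (sh K t v).2 = v.2 + (if t.2 then K else 0) := rfl
  have hrow : (sh K t v).2 ≤ l.2 ∧ l.2 < (sh K t v).2 + (2 * K + B) := by
    rw [mem_Vs] at hV
    rw [s2]
    push_cast at l4 hV ⊢
    by_cases hb : t.2 = true
    · rw [if_pos hb] at hV ⊢
      have : ¬ l.2 < y.2 + K := fun hh => hV ⟨hlct, hh⟩
      constructor <;> linarith
    · rw [if_neg hb] at hV ⊢
      have : ¬ y.2 + ((2 - 1) * K + B) ≤ l.2 := fun hh => hV ⟨hlct, hh⟩
      constructor <;> linarith
  rw [mem_ct] at hnot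
  obtain ⟨c0, hc0, c01, c02⟩ := col_ex h hC.gd (i := 0) (by omega)
  obtain ⟨c1, hc1, c11, c12⟩ := col_ex h hC.gd (i := 1) (by omega)
  have q0 := hq c0 hc0
  have q1 := hq c1 hc1
  rw [s1] at c01 c02 c11 c12
  rw [s1] at hnot
  push_cast at hnot l2 c01 c02 c11 c12 hlx
  cases i
  · simp only [Bool.not_false] at ht
    rw [ht] at c01 c02 c11 c12 hnot
    simp only [if_true, Bool.not_false, Bool.false_eq_true, if_false] at *
    have h1 : l.1 < v.1 + K := by
      by_contra hcon
      push Not at hcon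
      exact hnot ⟨hlP, hcon, by linarith, hrow.1, by push_cast at hrow ⊢; exact hrow.2⟩
    refine res_of_slot (i := 0) hA0.le ?_ ?_ <;> linarith
  · simp only [Bool.not_true] at ht
    rw [ht] at c01 c02 c11 c12 hnot
    simp only [if_true, Bool.not_true, Bool.false_eq_true, if_false, add_zero] at *
    have h1 : v.1 + (2 * K + A) ≤ l.1 := by
      by_contra hcon
      push Not at hcon
      exact hnot ⟨hlP, by linarith, hcon, hrow.1, by push_cast at hrow ⊢; exact hrow.2⟩
    refine res_of_slot (i := 2) hA0.le ?_ ?_ <;> linarith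

/-- residue of the ordinate of a near point that does not belong to the window -/
lemma posY (h : Prc P K A B m) (hm2 : m = 2) {j : Bool} {t : Bool × Bool} (ht : t.2 = !j) {v y : Z2}
    {X Y : ℤ} (hC : Cl P K A B m t v X Y) (hy : inR A B X Y y) {l : Z2}
    (hl : l ∈ Vs P K A B m (!j) y) (hV : l ∉ Hs P K A B m t.1 y)
    (hq : ∀ q ∈ ct P K A B m (sh K t v), if j then l.2 ≤ q.2 + 2 * K else q.2 ≤ l.2 + 2 * K) :
    B ≤ (l.2 - v.2) % K := by
  have hA0 := h.A0
  have hAK := h.AK
  have hB0 := h.B0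
  have hBK := h.BK
  subst hm2
  obtain ⟨z1, z2, z3, z4⟩ := hy
  have hlc := hl
  rw [mem_Vs] at hlc
  obtain ⟨hlct, hlx⟩ := hlc
  obtain ⟨hlP, l1, l2, l3, l4⟩ := mem_ct.1 hlct
  have hx1 := hC.x1
  have hx2 := hC.x2
  have hy1 := hC.y1
  have hy2 := hC.y2
  have hnot : l ∉ ct P K A B 2 (sh K t v) := by
    rw [hC.ctq y ⟨z1, z2, z3, z4⟩, mem_Mt, ht]
    exact fun hh => hh.2.2 hl
  have s1 : (sh K t v).1 = v.1 + (if t.1 then K else 0) := rfl
  have s2 : (sh K t v).2 = v.2 + (if t.2 then K else 0) := rfl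
  have hcol : (sh K t v).1 ≤ l.1 ∧ l.1 < (sh K t v).1 + (2 * K + A) := by
    rw [mem_Hs] at hV
    rw [s1]
    push_cast at l2 hV ⊢
    by_cases hb : t.1 = true
    · rw [if_pos hb] at hV ⊢
      have : ¬ l.1 < y.1 + K := fun hh => hV ⟨hlct, hh⟩
      constructor <;> linarith
    · rw [if_neg hb] at hV ⊢
      have : ¬ y.1 + ((2 - 1) * K + A) ≤ l.1 := fun hh => hV ⟨hlct, hh⟩
      constructor <;> linarith
  rw [mem_ct] at hnot
  obtain ⟨c0, hc0, c01, c02⟩ := row_ex h hC.gd (i := 0) (by omega)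
  obtain ⟨c1, hc1, c11, c12⟩ := row_ex h hC.gd (i := 1) (by omega)
  have q0 := hq c0 hc0
  have q1 := hq c1 hc1
  rw [s2] at c01 c02 c11 c12
  rw [s2] at hnot
  push_cast at hnot l4 c01 c02 c11 c12 hlx
  cases j
  · simp only [Bool.not_false] at ht
    rw [ht] at c01 c02 c11 c12 hnot
    simp only [if_true, Bool.not_false, Bool.false_eq_true, if_false] at *
    have h1 : l.2 < v.2 + K := by
      by_contra hcon
      push Not at hcon
      exact hnot ⟨hlP, hcol.1, by push_cast at hcol ⊢; exact hcol.2, hcon, by linarith⟩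
    refine res_of_slot (i := 0) hB0.le ?_ ?_ <;> linarith
  · simp only [Bool.not_true] at ht
    rw [ht] at c01 c02 c11 c12 hnot
    simp only [if_true, Bool.not_true, Bool.false_eq_true, if_false, add_zero] at *
    have h1 : v.2 + (2 * K + B) ≤ l.2 := by
      by_contra hcon
      push Not at hcon
      exact hnot ⟨hlP, hcol.1, by push_cast at hcol ⊢; exact hcol.2, by linarith, hcon⟩
    refine res_of_slot (i := 2) hB0.le ?_ ?_ <;> linarith

/-! ### weights -/

lemma nf_le (v : Z2) : nf P K A B m v ≤ 4 := by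
  unfold nf
  refine (card_filter_le _ _).trans ?_
  decide

lemma om_nonneg (v : Z2) : 0 ≤ om P K A B m v := by
  unfold om
  have : (0 : ℝ) ≤ 1 / (nf P K A B m v : ℝ) := by positivity
  split_ifs
  · exact le_min (by norm_num) this
  · exact this

lemma om_le_half (hm : m = 2) (v : Z2) : om P K A B m v ≤ 1 / 2 := by
  unfold om
  rw [if_pos hm]
  exact min_le_left _ _

lemma nf_mul_om (v : Z2) : (nf P K A B m v : ℝ) * om P K A B m v ≤ 1 := by
  have h0 : (0 : ℝ) ≤ nf P K A B m v := Nat.cast_nonneg _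
  have h1 : om P K A B m v ≤ 1 / (nf P K A B m v : ℝ) := by
    unfold om
    split_ifs
    · exact min_le_right _ _
    · exact le_rfl
  by_cases hn : nf P K A B m v = 0
  · rw [hn]
    norm_num
  · have hpos : (0 : ℝ) < nf P K A B m v := by
      exact_mod_cast Nat.pos_of_ne_zero hn
    calc (nf P K A B m v : ℝ) * om P K A B m v ≤ nf P K A B m v * (1 / (nf P K A B m v : ℝ)) :=
          mul_le_mul_of_nonneg_left h1 h0
      _ = 1 := by
          field_simp

/-- the total weight of the claims of `v` -/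
lemma nf_mul_om_eq (v : Z2) : (nf P K A B m v : ℝ) * om P K A B m v =
    if m = 2 then min 1 ((nf P K A B m v : ℝ) / 2) else min 1 (nf P K A B m v : ℝ) := by
  have hle := nf_le (P := P) (K := K) (A := A) (B := B) (m := m) v
  unfold om
  have : nf P K A B m v = 0 ∨ nf P K A B m v = 1 ∨ nf P K A B m v = 2 ∨ nf P K A B m v = 3 ∨
      nf P K A B m v = 4 := by omega
  rcases this with h | h | h | h | h <;> rw [h] <;> split_ifs <;> norm_num

lemma sum_cc_om (v : Z2) : ∑ t : Bool × Bool, (if cc P K A B m t v then om P K A B m v else 0) =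
    (nf P K A B m v : ℝ) * om P K A B m v := by
  rw [← sum_filter, sum_const, nsmul_eq_mul]
  rfl

end Prc24
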