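import Pool.Agent.Prc92s.Defs

/-!
# Residues
-/

namespace Prc24

open Finset Classical

variable {P : Set Z2} {K A B : ℤ} {m : ℕ}

private lemma emod_inj {K a b : ℤ} (ha : 1 ≤ a) (ha' : a ≤ K) (hb : 1 ≤ b) (hb' : b ≤ K) {c : ℤ}
    (h : (c + a) % K = (c + b) % K) : a = b := by
  have h1 : K ∣ (c + a) - (c + b) := Int.ModEq.dvd (h.symm : (c + b) ≡ (c + a) [ZMOD K])
  have h2 : K ∣ a - b := by
    have : (c + a) - (c + b) = a - b := by ring
    rwa [this] at h1
  obtain ⟨k, hk⟩ := h2
  have hK : 0 < K := by linarith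
  have hk0 : k = 0 := by
    have h3 : a - b < K := by linarith
    have h4 : -K < a - b := by linarith
    rw [hk] at h3 h4
    have h5 : k < 1 := by
      by_contra hc
      push Not at hc
      nlinarith
    have h6 : -1 < k := by
      by_contra hc
      push Not at hc
      nlinarith
    omega
  rw [hk0, mul_zero] at hk
  linarith

lemma card_Dp (hAK : A < K) (hBK : B < K) (hA : 0 < A) (y p q : Z2) :
    ((Dp K A B y p q).card : ℝ) ≤ ((K : ℝ) - A) * (K - B) := by
  have h1 : (Dp K A B y p q).card ≤ (Ico A K ×ˢ Ico B K).card := by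
    apply Finset.card_le_card_of_injOn
      (fun d => ((p.1 - (y.1 - d.1)) % K, (q.2 - (y.2 - d.2)) % K))
    · intro d hd
      have hd' : d ∈ Dp K A B y p q := hd
      unfold Dp at hd'
      rw [mem_filter] at hd'
      have hK : 0 < K := by linarith
      simp only [coe_product, Set.mem_prod, coe_Ico, Set.mem_Ico]
      exact ⟨⟨hd'.2.1, Int.emod_lt_of_pos _ hK⟩, ⟨hd'.2.2, Int.emod_lt_of_pos _ hK⟩⟩
    · intro d hd e he hde
      have hd' : d ∈ Dp K A B y p q := hd
      have he' : e ∈ Dp K A B y p q := he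
      unfold Dp DD at hd' he'
      rw [mem_filter, mem_product, mem_Icc, mem_Icc] at hd' he'
      simp only [Prod.mk.injEq] at hde
      have e1 : ∀ a b c : ℤ, a - (b - c) = (a - b) + c := by intros; ring
      rw [e1, e1, e1, e1] at hde
      exact Prod.ext (emod_inj hd'.1.1.1 hd'.1.1.2 he'.1.1.1 he'.1.1.2 hde.1)
        (emod_inj hd'.1.2.1 hd'.1.2.2 he'.1.2.1 he'.1.2.2 hde.2)
  have h2 : ((Ico A K ×ˢ Ico B K).card : ℝ) = ((K : ℝ) - A) * (K - B) := by
    rw [card_product, Int.card_Ico, Int.card_Ico, Nat.cast_mul]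
    have a1 : (((K - A).toNat : ℕ) : ℝ) = (K : ℝ) - A := by
      have : (((K - A).toNat : ℕ) : ℤ) = K - A := Int.toNat_of_nonneg (by linarith)
      exact_mod_cast this
    have a2 : (((K - B).toNat : ℕ) : ℝ) = (K : ℝ) - B := by
      have : (((K - B).toNat : ℕ) : ℤ) = K - B := Int.toNat_of_nonneg (by linarith)
      exact_mod_cast this
    rw [a1, a2]
  rw [← h2]
  exact_mod_cast h1

/-- a point whose position relative to `c` is in a slot -/
lemma res_of_slot {K A c x : ℤ} {i : ℤ} (hA : 0 ≤ A) (h1 : c + i * K + A ≤ x) (h2 : x < c + i * K + K) :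
    A ≤ (x - c) % K := by
  have e : x - c = (x - c - i * K) + K * i := by ring
  rw [e, Int.add_mul_emod_self_left, Int.emod_eq_of_lt (by linarith) (by linarith)]
  linarith

lemma res_col (h : Prc P K A B m) {v p : Z2} {t : Bool × Bool} (hz : Gd P K A B m (sh K t v))
    (hp : p ∈ ct P K A B m (sh K t v)) : A ≤ (p.1 - v.1) % K := by
  obtain ⟨i, _, h1, h2⟩ := col_slot h hz hp
  unfold sh at h1 h2
  simp only at h1 h2
  by_cases ht : t.1 = true
  · rw [if_pos ht] at h1 h2
    exact res_of_slot (i := (i : ℤ) + 1) h.A0.le (by linarith) (by linarith)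
  · rw [if_neg ht] at h1 h2
    exact res_of_slot (i := (i : ℤ)) h.A0.le (by linarith) (by linarith)

lemma res_row (h : Prc P K A B m) {v p : Z2} {t : Bool × Bool} (hz : Gd P K A B m (sh K t v))
    (hp : p ∈ ct P K A B m (sh K t v)) : B ≤ (p.2 - v.2) % K := by
  obtain ⟨i, _, h1, h2⟩ := row_slot h hz hp
  unfold sh at h1 h2
  simp only at h1 h2
  by_cases ht : t.2 = true
  · rw [if_pos ht] at h1 h2
    exact res_of_slot (i := (i : ℤ) + 1) h.B0.le (by linarith) (by linarith)
  · rw [if_neg ht] at h1 h2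
    exact res_of_slot (i := (i : ℤ)) h.B0.le (by linarith) (by linarith)

lemma mem_Dp {y p q d : Z2} (hd : d ∈ DD K) (h1 : A ≤ (p.1 - (y - d).1) % K)
    (h2 : B ≤ (q.2 - (y - d).2) % K) : d ∈ Dp K A B y p q := by
  unfold Dp
  rw [mem_filter]
  exact ⟨hd, h1, h2⟩

end Prc24
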